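import Pool.Agent.U575.PL.Untr
import Pool.Agent.U575.OL.Tfae

set_option autoImplicit false

/-! Shifted moments of the critical order. -/

namespace Pool.Agent.U575.PL

open MeasureTheory Filter Topology Complex Pool.Agent.N748.MG Pool.Agent.U575.RO Pool.Agent.U575.JO
  Pool.Agent.U575.OL

noncomputable section

/-- large distances in the logarithmic scale -/
def Dl (d : ℝ → ℝ) : Prop := Tendsto d atTop (𝓝 0) ∧
  Tendsto (fun T : ℝ => d T * Real.log T / Real.log (Real.log T)) atTop atTop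

lemma ll_top' : Tendsto (fun T : ℝ => Real.log (Real.log T)) atTop atTop :=
  Real.tendsto_log_atTop.comp Real.tendsto_log_atTop

lemma Dl.ge {d : ℝ → ℝ} (h : Dl d) (a : ℝ) : ∀ᶠ T : ℝ in atTop, a * Real.log (Real.log T) ≤ d T * Real.log T := by
  filter_upwards [h.2.eventually_ge_atTop a, ll_top'.eventually_gt_atTop 0] with T h1 h2
  rwa [le_div_iff₀ h2] at h1

lemma Dl.pos {d : ℝ → ℝ} (h : Dl d) : ∀ᶠ T : ℝ in atTop, 0 < d T := by
  filter_upwards [h.ge 1, ll_top'.eventually_gt_atTop 0, Real.tendsto_log_atTop.eventually_gt_atTop 0] with T h1 h2 h3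
  exact pos_of_mul_pos_left (by linarith) h3.le

lemma ll_two : ∀ᶠ T : ℝ in atTop, 0 < Real.log (Real.log T) ∧ 0 < Real.log T ∧ Real.log T ≤ Real.log (2 * T) ∧
    Real.log (2 * T) ≤ 2 * Real.log T ∧ Real.log (Real.log (2 * T)) ≤ 2 * Real.log (Real.log T) := by
  filter_upwards [ll_top'.eventually_gt_atTop 0, Real.tendsto_log_atTop.eventually_ge_atTop 2,
    eventually_ge_atTop 2] with T h1 h2 h3
  have h4 : Real.log (2 * T) ≤ 2 * Real.log T := by
    have h5 : Real.log (2 * T) ≤ Real.log (T ^ 2) := Real.log_le_log (by positivity) (by nlinarith)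
    rw [Real.log_pow] at h5
    exact_mod_cast h5
  have h6 : Real.log T ≤ Real.log (2 * T) := Real.log_le_log (by linarith) (by linarith)
  refine ⟨h1, by linarith, h6, h4, ?_⟩
  have h7 : Real.log (Real.log (2 * T)) ≤ Real.log (Real.log T ^ 2) :=
    Real.log_le_log (by linarith) (by nlinarith)
  rw [Real.log_pow] at h7
  exact_mod_cast h7

lemma Sinf_ge {k : ℕ} (hk : 1 ≤ k) {d : ℝ → ℝ} (h0 : Tendsto d atTop (𝓝 0)) (hp : ∀ᶠ T : ℝ in atTop, 0 < d T)
    {ε : ℝ} (hε : 0 < ε) : ∀ᶠ T : ℝ in atTop,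
      H306R2.aF k - ε ≤ (2 * d T) ^ ((k:ℝ) ^ 2) * Sinf k (d T) := by
  have h1 : Tendsto d atTop (𝓝[>] 0) := tendsto_nhdsWithin_iff.2 ⟨h0, hp⟩
  have h2 := (Sinf_lim hk).comp h1
  filter_upwards [h2.eventually_const_le (show H306R2.aF k - ε < H306R2.aF k by linarith), hp] with T h3 h4
  simp only [Function.comp_apply] at h3
  have e : (2 * d T) ^ ((k:ℝ) ^ 2) = (2 * d T) ^ (k ^ 2) := by
    rw [← Real.rpow_natCast (2 * d T) (k ^ 2)]
    push_cast
    rfl
  rw [e, mul_comm]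
  exact h3

/-- **the critical order** -/
theorem crit {k : ℕ} (hk : 1 ≤ k) : ∃ Cs : ℝ, 1 ≤ Cs ∧ ∀ d : ℝ → ℝ, Tendsto d atTop (𝓝 0) →
    (∀ᶠ T : ℝ in atTop, Cs * Real.log (Real.log T) ≤ d T * Real.log T) →
    Tendsto (fun T : ℝ => (2 * d T) ^ ((k:ℝ) ^ 2) * (1 / T * MR k (d T) (2 * T))) atTop (𝓝 (2 * H306R2.aF k)) →
    ∀ ε : ℝ, 0 < ε → ∀ᶠ T : ℝ in atTop, ∀ a b : Fin k → ℝ, (∀ j, |a j| ≤ T) → (∀ j, |b j| ≤ T) →
      ‖SM a b (d T) T - T * diag a b (d T)‖ ≤ ε * (T * (2 * d T) ^ (-((k:ℝ) ^ 2))) := by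
  have hk0 : (0:ℝ) < k := by exact_mod_cast hk
  obtain ⟨c, hc, h⟩ := trc k k
  obtain ⟨A1, C1, T1, hC1, h1⟩ := h 1
  obtain ⟨B, hB⟩ : ∃ B : ℕ, B = 4 * k * A1 + 3 := ⟨_, rfl⟩
  obtain ⟨A2, C2, T2, hC2, h2⟩ := h B
  obtain ⟨Cs, hCs⟩ : ∃ Cs : ℝ, Cs = 1 + 2 * C1 + C2 + 2 * A1 / c + A2 / c := ⟨_, rfl⟩
  have q1 : 0 ≤ 2 * A1 / c := by positivity
  have q2 : 0 ≤ A2 / c := by positivity
  refine ⟨Cs, by linarith, fun d hd0 hdg hU ε hε => ?_⟩
  have hge : ∀ x : ℝ, x ≤ Cs → ∀ᶠ T : ℝ in atTop, x * Real.log (Real.log T) ≤ d T * Real.log T := by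
    intro x hx
    filter_upwards [hdg, ll_top'.eventually_gt_atTop 0] with T g1 g2
    exact (mul_le_mul_of_nonneg_right hx g2.le).trans g1
  have hdp : ∀ᶠ T : ℝ in atTop, 0 < d T := by
    filter_upwards [hge 1 (by linarith), ll_top'.eventually_gt_atTop 0,
      Real.tendsto_log_atTop.eventually_gt_atTop 0] with T h1 h2 h3
    exact pos_of_mul_pos_left (by linarith) h3.le
  obtain ⟨ε1, hε1⟩ : ∃ ε1, ε1 = ε / (32 * k) := ⟨_, rfl⟩
  have hε10 : 0 < ε1 := by rw [hε1]; positivity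
  have hε11 : 16 * k * ε1 = ε / 2 := by rw [hε1]; field_simp; norm_num
  have t2 : Tendsto (fun T : ℝ => 2 * T) atTop atTop := tendsto_id.const_mul_atTop two_pos
  filter_upwards [ll_two, hge (2 * C1) (by linarith), hge C2 (by linarith), hge (2 * A1 / c) (by linarith),
    hge (A2 / c) (by linarith), hdp,
    hd0.eventually_le_const (show (0:ℝ) < 1 / 16 by norm_num), eventually_ge_atTop T2,
    t2.eventually_ge_atTop T1, hU.eventually_le_const (show 2 * H306R2.aF k < 2 * H306R2.aF k + ε1 by linarith),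
    Sinf_ge hk hd0 hdp hε10, Real.tendsto_log_atTop.eventually_ge_atTop (max 1 (2 ^ (4 * k * A1) / ε1)),
    Real.tendsto_log_atTop.eventually_ge_atTop (max (8 / ε1) (2 / ε)), eventually_gt_atTop 0] with
    T hll g1 g2 g3 g4 g5 g6 g7 g8 g9 g10 g11 g12 hT a b ha hb
  obtain ⟨l1, l2, l3, l4, l5⟩ := hll
  set L := Real.log T with hL
  set δ := d T with hδ
  have hL1 : 1 ≤ L := (le_max_left _ _).trans g11
  have hLe1 : 2 ^ (4 * k * A1) / ε1 ≤ L := (le_max_right _ _).trans g11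
  have hLe2 : 8 / ε1 ≤ L := (le_max_left _ _).trans g12
  have hLe3 : 2 / ε ≤ L := (le_max_right _ _).trans g12
  set L2 := Real.log (2 * T) with hL2
  have hL20 : 0 < L2 := by linarith
  have hL21 : 1 ≤ L2 := by linarith
  -- the scale
  obtain ⟨w, hw⟩ : ∃ w, w = (2 * δ) ^ ((k:ℝ) ^ 2) := ⟨_, rfl⟩
  have h2δ : 0 < 2 * δ := by linarith
  have hw0 : 0 < w := by rw [hw]; positivity
  have hwi : (2 * δ) ^ (-((k:ℝ) ^ 2)) = w⁻¹ := by rw [hw, Real.rpow_neg h2δ.le]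
  have hw1 : w ≤ 1 := by rw [hw]; exact Real.rpow_le_one h2δ.le (by linarith) (sq_nonneg _)
  have hM0 : T ≤ T * w⁻¹ := le_mul_of_one_le_right hT.le ((one_le_inv₀ hw0).2 hw1)
  rw [← hw] at g9 g10
  -- the set N1
  set V0 : ℝ := L2 ^ A1 with hV0
  have hV01 : 1 ≤ V0 := one_le_pow₀ hL21
  have hV0c : V0 ≤ (2 * T) ^ (c * δ) := by
    rw [Real.rpow_def_of_pos (by positivity), ← Real.log_le_iff_le_exp (by positivity), hV0, Real.log_pow]
    have h3 : (A1:ℝ) * Real.log L2 ≤ A1 * (2 * Real.log L) := by gcongr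
    have h4 : 2 * A1 / c * Real.log L ≤ δ * L := g3
    have h5 : (A1:ℝ) * (2 * Real.log L) = c * (2 * A1 / c * Real.log L) := by field_simp
    calc (A1:ℝ) * Real.log L2 ≤ c * (2 * A1 / c * Real.log L) := by rw [← h5]; exact h3
      _ ≤ c * (δ * L) := by gcongr
      _ ≤ c * (δ * L2) := by gcongr
      _ = Real.log (2 * T) * (c * δ) := by rw [← hL2]; ring
  have hδ1 : C1 * Real.log (Real.log (2 * T)) / Real.log (2 * T) ≤ δ := by
    rw [← hL2, div_le_iff₀ hL20]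
    calc C1 * Real.log L2 ≤ C1 * (2 * Real.log L) := by gcongr
      _ = 2 * C1 * Real.log L := by ring
      _ ≤ δ * L := g1
      _ ≤ δ * L2 := by gcongr
  obtain ⟨m1, -⟩ := h1 (2 * T) g8 δ hδ1 g6 V0 le_rfl hV0c (fun _ => 0) (fun _ => 0)
    (fun _ => by rw [abs_zero]; positivity) (fun _ => by rw [abs_zero]; positivity)
  set N1 : Set ℝ := good (fun _ : Fin k => (0:ℝ)) (fun _ : Fin k => (0:ℝ)) δ V0 (2 * T) with hN1
  have hN1m : MeasurableSet N1 := good_meas _ _ g6 _ _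
  have hN1s : N1 ⊆ Set.Icc 0 (2 * T) := fun t ht => Set.Ioc_subset_Icc_self ht.1
  have hN1V : ∀ t ∈ N1, mz δ t ≤ V0 := by
    intro t ht
    have h3 := ht.2 (Sum.inl ⟨0, hk⟩)
    have h4 : hh (fun _ : Fin k => (0:ℝ)) (fun _ : Fin k => (0:ℝ)) (Sum.inl ⟨0, hk⟩) = 0 := rfl
    rwa [h4, add_zero] at h3
  have hI1 : ∫ t in N1, G (fun _ : Fin k => (0:ℝ)) (fun _ : Fin k => (0:ℝ)) δ t =
      ((∫ t in N1, mz δ t ^ (2 * (k:ℝ)) : ℝ) : ℂ) := by
    rw [← integral_complex_ofReal]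
    congr 1
    funext t
    exact G_zero k δ t
  rw [hI1, diag_zero, pow_one, ← hL2] at m1
  have m2 : 2 * T * Sinf k δ - 2 * T / L2 ≤ ∫ t in N1, mz δ t ^ (2 * (k:ℝ)) := by
    have e : (((∫ t in N1, mz δ t ^ (2 * (k:ℝ)) : ℝ) : ℂ) - ((2 * T : ℝ) : ℂ) * ((Sinf k δ : ℝ) : ℂ)) =
        ((((∫ t in N1, mz δ t ^ (2 * (k:ℝ))) - 2 * T * Sinf k δ : ℝ)) : ℂ) := by push_cast; ring
    rw [e, Complex.norm_real] at m1
    have := (abs_le.1 m1).1
    linarith
  have m3 : ∫ t in N1, mz δ t ^ (2 * (2 * (k:ℝ))) ≤ V0 ^ (4 * k) * (2 * T) := by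
    have hc2 := mzp_cont g6 (κ := 2 * (k:ℝ)) (by positivity)
    calc ∫ t in N1, mz δ t ^ (2 * (2 * (k:ℝ))) ≤ ∫ t in N1, V0 ^ (4 * k) := by
          refine setIntegral_mono_on (hc2.continuousOn.integrableOn_Icc.mono_set hN1s)
            (integrableOn_const (measure_mono hN1s |>.trans_lt measure_Icc_lt_top).ne) hN1m fun t ht => ?_
          have e : (2 * (2 * (k:ℝ))) = ((4 * k : ℕ) : ℝ) := by push_cast; ring
          rw [e, Real.rpow_natCast]
          exact pow_le_pow_left₀ (norm_nonneg _) (hN1V t ht) _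
      _ = (volume : Measure ℝ).real N1 * V0 ^ (4 * k) := by rw [setIntegral_const, smul_eq_mul]
      _ ≤ (2 * T) * V0 ^ (4 * k) := by
          gcongr
          have h3 : (volume : Measure ℝ).real N1 ≤ (volume : Measure ℝ).real (Set.Icc 0 (2 * T)) :=
            measureReal_mono hN1s measure_Icc_lt_top.ne
          refine h3.trans (le_of_eq ?_)
          rw [Real.volume_real_Icc_of_le (by linarith)]
          ring
      _ = _ := by ring
  have m4 : MR k δ (2 * T) - (∫ t in N1, mz δ t ^ (2 * (k:ℝ))) ≤ 3 * ε1 * (T * w⁻¹) + 2 * T / L2 := by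
    have e : w * MR k δ (2 * T) = T * (w * (1 / T * MR k δ (2 * T))) := by field_simp
    have h3 : w * MR k δ (2 * T) ≤ T * (2 * H306R2.aF k + ε1) := by
      rw [e]
      gcongr
    have h4 : 2 * T * (H306R2.aF k - ε1) ≤ 2 * T * (w * Sinf k δ) := by gcongr
    have h5 : w * (MR k δ (2 * T) - 2 * T * Sinf k δ) ≤ 3 * ε1 * T := by
      have : w * (MR k δ (2 * T) - 2 * T * Sinf k δ) = w * MR k δ (2 * T) - 2 * T * (w * Sinf k δ) := by ring
      rw [this]
      linarith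
    have h6 : MR k δ (2 * T) - 2 * T * Sinf k δ ≤ 3 * ε1 * (T * w⁻¹) := by
      calc MR k δ (2 * T) - 2 * T * Sinf k δ = w⁻¹ * (w * (MR k δ (2 * T) - 2 * T * Sinf k δ)) := by field_simp
        _ ≤ w⁻¹ * (3 * ε1 * T) := by gcongr
        _ = _ := by ring
    linarith
  -- the good set for the shifts
  have hδ2 : C2 * Real.log (Real.log T) / Real.log T ≤ δ := by
    rw [← hL, div_le_iff₀ l2]
    exact g2
  have hVc : L ^ A2 ≤ T ^ (c * δ) := by
    rw [Real.rpow_def_of_pos hT, ← Real.log_le_iff_le_exp (by positivity), Real.log_pow]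
    calc (A2:ℝ) * Real.log L = c * (A2 / c * Real.log L) := by field_simp
      _ ≤ c * (δ * L) := by gcongr
      _ = Real.log T * (c * δ) := by rw [← hL]; ring
  obtain ⟨n1, n2⟩ := h2 T g7 δ hδ2 g6 (L ^ A2) le_rfl hVc a b ha hb
  set E := Set.Ioc 0 T \ good a b δ (L ^ A2) T with hE
  have hEm : MeasurableSet E := measurableSet_Ioc.diff (good_meas a b g6 _ _)
  have hEs : E ⊆ Set.Icc 0 T := Set.sdiff_subset.trans Set.Ioc_subset_Icc_self
  have hEf : volume E ≠ ⊤ := (measure_mono hEs |>.trans_lt (by simp)).ne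
  have hvE : volume E ≤ ENNReal.ofReal (T / L ^ B) := by
    rw [← ENNReal.ofReal_toReal hEf]
    exact ENNReal.ofReal_le_ofReal n2
  have hV1 : 1 ≤ L ^ A2 := one_le_pow₀ hL1
  have hGn : ∀ t ∈ E, ‖G a b δ t‖ ≤ ∑ i, mz δ (t + hh a b i) ^ (2 * (k:ℝ)) := by
    intro t ht
    have h3 : ∃ i, L ^ A2 < mz δ (t + hh a b i) := by
      by_contra hcon
      push Not at hcon
      exact ht.2 ⟨ht.1, hcon⟩
    obtain ⟨i, hi⟩ := h3
    rw [G_norm]
    have h4 := prod_big (y := fun i => mz δ (t + hh a b i)) (fun i => norm_nonneg _) hV1 hi (m := 2 * k)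
      (by rw [card_kl]; omega)
    rw [card_kl] at h4
    have e : 2 * k - (k + k) = 0 := by omega
    rw [e, pow_zero, inv_one, one_mul] at h4
    simp only [pow_rpow k] at h4
    exact h4
  have hT2L : 2 * T / L2 ≤ 2 * T / L := by gcongr
  have hεM : 8 * T / L ≤ ε1 * (T * w⁻¹) := by
    rw [div_le_iff₀ l2]
    calc 8 * T = (8 / ε1) * ε1 * T := by field_simp
      _ ≤ L * ε1 * (T * w⁻¹) := by gcongr
      _ = _ := by ring
  have hone : ∀ i, ∫ t in E, mz δ (t + hh a b i) ^ (2 * (k:ℝ)) ≤ 8 * ε1 * (T * w⁻¹) := by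
    intro i
    have h3 := small_set (h := hh a b i) g6 hk0.le hT.le (hh_le ha hb i) (P := V0 ^ (4 * k) * L) (v := T / L ^ B)
      (by positivity) (by positivity) hEm hEs hvE hN1m hN1s
    have h4 : V0 ^ (4 * k) * L * (T / L ^ B) ≤ ε1 * (T * w⁻¹) := by
      have e1 : V0 ^ (4 * k) ≤ 2 ^ (4 * k * A1) * L ^ (4 * k * A1) := by
        rw [hV0, ← pow_mul, mul_comm A1 (4 * k), ← mul_pow]
        gcongr
      have e2 : L ^ B = L ^ (4 * k * A1) * L ^ 3 := by rw [hB, pow_add]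
      rw [← mul_div_assoc, div_le_iff₀ (by positivity)]
      calc V0 ^ (4 * k) * L * T ≤ (2 ^ (4 * k * A1) * L ^ (4 * k * A1)) * L * T := by gcongr
        _ = (2 ^ (4 * k * A1) / ε1) * (ε1 * L ^ (4 * k * A1) * L * T) := by field_simp
        _ ≤ L * (ε1 * L ^ (4 * k * A1) * L * T) := by gcongr
        _ = ε1 * T * (L ^ (4 * k * A1) * L ^ 2) := by ring
        _ ≤ ε1 * (T * w⁻¹) * (L ^ (4 * k * A1) * L ^ 3) := by
            have e3 : L ^ 2 ≤ L ^ 3 := pow_le_pow_right₀ hL1 (by norm_num)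
            calc ε1 * T * (L ^ (4 * k * A1) * L ^ 2) = ε1 * (T * (L ^ (4 * k * A1) * L ^ 2)) := by ring
              _ ≤ ε1 * ((T * w⁻¹) * (L ^ (4 * k * A1) * L ^ 3)) := by gcongr
              _ = _ := by ring
        _ = _ := by rw [e2]
    have h5 : (V0 ^ (4 * k) * L)⁻¹ * (2 * ∫ t in N1, mz δ t ^ (2 * (2 * (k:ℝ)))) ≤ 4 * T / L := by
      calc (V0 ^ (4 * k) * L)⁻¹ * (2 * ∫ t in N1, mz δ t ^ (2 * (2 * (k:ℝ)))) ≤
            (V0 ^ (4 * k) * L)⁻¹ * (2 * (V0 ^ (4 * k) * (2 * T))) := by gcongr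
        _ = 4 * T / L := by
            have : V0 ≠ 0 := by linarith
            field_simp
            norm_num
    have h6 : 8 * T / L = 4 * T / L + 2 * (2 * T / L) := by ring
    linarith
  have hGI : IntegrableOn (G a b δ) E := (G_cont a b g6).continuousOn.integrableOn_Icc.mono_set hEs
  have hi : ∀ i, IntegrableOn (fun t => mz δ (t + hh a b i) ^ (2 * (k:ℝ))) E := fun i =>
    (mzs_cont g6 hk0.le _).continuousOn.integrableOn_Icc.mono_set hEs
  have hEb : ‖∫ t in E, G a b δ t‖ ≤ ε / 2 * (T * w⁻¹) := by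
    calc ‖∫ t in E, G a b δ t‖ ≤ ∫ t in E, ‖G a b δ t‖ := norm_integral_le_integral_norm _
      _ ≤ ∫ t in E, ∑ i, mz δ (t + hh a b i) ^ (2 * (k:ℝ)) :=
          setIntegral_mono_on hGI.norm (integrable_finsetSum _ fun i _ => hi i) hEm hGn
      _ = ∑ i, ∫ t in E, mz δ (t + hh a b i) ^ (2 * (k:ℝ)) := integral_finsetSum _ fun i _ => hi i
      _ ≤ ∑ _i : Fin k ⊕ Fin k, 8 * ε1 * (T * w⁻¹) := Finset.sum_le_sum fun i _ => hone i
      _ = (16 * k * ε1) * (T * w⁻¹) := by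
          rw [Finset.sum_const, Finset.card_univ, card_kl, nsmul_eq_mul]
          push_cast
          ring
      _ = _ := by rw [hε11]
  have hgd : T / L ^ B ≤ ε / 2 * (T * w⁻¹) := by
    rw [div_le_iff₀ (by positivity)]
    have e1 : L ≤ L ^ B := le_self_pow₀ hL1 (by omega)
    calc T = (2 / ε) * (ε / 2 * T) := by field_simp
      _ ≤ L * (ε / 2 * T) := by gcongr
      _ ≤ L ^ B * (ε / 2 * (T * w⁻¹)) := by gcongr
      _ = _ := by ring
  have hsp := SM_split a b g6 (L ^ A2) hT.le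
  rw [← hE] at hsp
  have e1 : SM a b δ T - T * diag a b δ = (SM a b δ T - ∫ t in good a b δ (L ^ A2) T, G a b δ t) +
      ((∫ t in good a b δ (L ^ A2) T, G a b δ t) - T * diag a b δ) := by ring
  rw [e1, hsp, hwi]
  calc _ ≤ _ := norm_add_le _ _
    _ ≤ ε / 2 * (T * w⁻¹) + ε / 2 * (T * w⁻¹) := add_le_add hEb (n1.trans hgd)
    _ = _ := by ring

end

end Pool.Agent.U575.PL
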