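import Pool.Agent.U575.OL.Conv

set_option autoImplicit false

/-! The moment off the line is bounded by the one on the line, uniformly in the distance. -/

namespace Pool.Agent.U575.OL

open Complex MeasureTheory Filter Topology Set Pool.Agent.TH535.SM
open scoped FourierTransform ComplexConjugate

noncomputable section

lemma zeta_far : ∃ B : ℝ, 1 ≤ B ∧ ∀ t : ℝ, ‖riemannZeta (pt 1 t)‖ ≤ B := by
  refine ⟨(∑' n : ℕ, 1 / ((n:ℝ) + 1) ^ (3 / 2 : ℝ)) + 1, ?_, fun t => ?_⟩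
  · have : 0 ≤ ∑' n : ℕ, 1 / ((n:ℝ) + 1) ^ (3 / 2 : ℝ) := tsum_nonneg fun n => by positivity
    linarith
  · have hs : 1 < (pt 1 t).re := by rw [pt_re]; norm_num
    have hsum : Summable fun n : ℕ => 1 / ((n:ℝ) + 1) ^ (3 / 2 : ℝ) := by
      have h := (Real.summable_one_div_nat_rpow (p := 3 / 2)).2 (by norm_num)
      have h2 := (summable_nat_add_iff 1).2 h
      refine h2.congr fun n => ?_
      push_cast; rfl
    rw [zeta_eq_tsum_one_div_nat_add_one_cpow hs]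
    have hn : ∀ n : ℕ, ‖1 / ((n:ℂ) + 1) ^ (pt 1 t)‖ = 1 / ((n:ℝ) + 1) ^ (3 / 2 : ℝ) := by
      intro n
      rw [norm_div, norm_one]
      congr 1
      have e : ((n:ℂ) + 1) = (((n:ℝ) + 1 : ℝ) : ℂ) := by push_cast; rfl
      rw [e, Complex.norm_cpow_eq_rpow_re_of_pos (by positivity), pt_re]
      norm_num
    have h3 := tsum_of_norm_bounded hsum.hasSum fun n => (hn n).le
    linarith

lemma zeta_cont1 : Continuous (fun t : ℝ => riemannZeta (pt 1 t)) := by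
  rw [continuous_iff_continuousAt]
  intro t
  refine ContinuousAt.comp (f := fun t : ℝ => pt 1 t)
    (differentiableAt_riemannZeta (fun h => ?_)).continuousAt (pt_cont 1).continuousAt
  have := congrArg Complex.re h
  simp at this

/-- the far line -/
lemma far (k : ℕ) : ∃ F : ℝ, 0 ≤ F ∧ ∀ T : ℝ, 1 ≤ T →
    ∫ t, ‖(fun s => V T s * H k 1 s) (pt 1 t)‖ ^ 2 ≤ F * T := by
  obtain ⟨C, hC, hc⟩ := cmp k 1
  obtain ⟨c, hc0, hw⟩ := Wq_val
  obtain ⟨B, hB, hb⟩ := zeta_far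
  refine ⟨2 * B ^ (2 * k) + 2 * C * (B ^ (2 * k) * c), by positivity, fun T hT => ?_⟩
  have hT0 : 0 ≤ T := by linarith
  have hsd := SD_of_PG (H_PG k (u := 1) le_rfl) hT
  have hdec := hsd.dec (r := 1) (by norm_num) (by norm_num)
  have hφ : Continuous fun t : ℝ => riemannZeta (pt 1 t) ^ k := zeta_cont1.pow k
  have hφb : ∀ t : ℝ, ‖riemannZeta (pt 1 t) ^ k‖ ^ 2 ≤ B ^ (2 * k) := by
    intro t
    rw [norm_pow, ← pow_mul, mul_comm k 2]
    exact pow_le_pow_left₀ (norm_nonneg _) (hb t) _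
  have hne : ∀ t : ℝ, pt 1 t ≠ 1 := fun t h => by
    have := congrArg Complex.re h
    simp at this
  have he : ∀ t : ℝ, (fun s => V T s * H k 1 s) (pt 1 t) = V T (pt 1 t) * (qq k 1 (pt 1 t) * riemannZeta (pt 1 t) ^ k) := by
    intro t
    simp only
    rw [H_qq (hne t)]
  have hI : Integrable (fun t => ‖V T (pt 1 t) * (qq k 1 (pt 1 t) * riemannZeta (pt 1 t) ^ k)‖ ^ 2) := by
    refine hdec.sq.congr (Eventually.of_forall fun t => ?_)
    simp only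
    rw [H_qq (hne t)]
  have hWn : ∀ t, 0 ≤ Wq T t := by
    intro t
    have h5 := ind_nonneg T t
    unfold Wq
    positivity
  have hW : Integrable (fun t => Wq T t * ‖riemannZeta (pt 1 t) ^ k‖ ^ 2) := by
    refine ((Wq_int T).mul_const (B ^ (2 * k))).mono' ?_ (Eventually.of_forall fun t => ?_)
    · exact (Wq_int T).aestronglyMeasurable.mul (hφ.norm.pow 2).aestronglyMeasurable
    · rw [Real.norm_of_nonneg (mul_nonneg (hWn t) (by positivity))]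
      exact mul_le_mul_of_nonneg_left (hφb t) (hWn t)
  obtain ⟨h1, -⟩ := hc T hT 1 zero_le_one le_rfl _ hφ hI hW 1 one_pos
  simp only [he]
  have h2 : ∫ t in (0:ℝ)..T, ‖riemannZeta (pt 1 t) ^ k‖ ^ 2 ≤ B ^ (2 * k) * T := by
    calc ∫ t in (0:ℝ)..T, ‖riemannZeta (pt 1 t) ^ k‖ ^ 2 ≤ ∫ t in (0:ℝ)..T, B ^ (2 * k) :=
          intervalIntegral.integral_mono_on hT0 ((hφ.norm.pow 2).intervalIntegrable _ _) (by simp)
            fun t _ => hφb t
      _ = _ := by simp; ring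
  have h3 : ∫ t, Wq T t * ‖riemannZeta (pt 1 t) ^ k‖ ^ 2 ≤ B ^ (2 * k) * c := by
    calc ∫ t, Wq T t * ‖riemannZeta (pt 1 t) ^ k‖ ^ 2 ≤ ∫ t, Wq T t * B ^ (2 * k) :=
          integral_mono hW ((Wq_int T).mul_const _) fun t => mul_le_mul_of_nonneg_left (hφb t) (hWn t)
      _ = (∫ t, Wq T t) * B ^ (2 * k) := integral_mul_const _ _
      _ ≤ c * B ^ (2 * k) := by
          gcongr
          exact hw T hT0
      _ = _ := by ring
  have h4 : (1 + (1:ℝ)⁻¹) * C * ∫ t, Wq T t * ‖riemannZeta (pt 1 t) ^ k‖ ^ 2 ≤ 2 * C * (B ^ (2 * k) * c) * T := by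
    calc (1 + (1:ℝ)⁻¹) * C * ∫ t, Wq T t * ‖riemannZeta (pt 1 t) ^ k‖ ^ 2 ≤
          (1 + (1:ℝ)⁻¹) * C * (B ^ (2 * k) * c) := by gcongr
      _ = 2 * C * (B ^ (2 * k) * c) * 1 := by norm_num
      _ ≤ _ := by gcongr
  calc _ ≤ _ := h1
    _ ≤ (1 + 1) * (B ^ (2 * k) * T) + 2 * C * (B ^ (2 * k) * c) * T := by gcongr
    _ = _ := by ring

/-- **the moment off the line, uniformly in the distance** -/
theorem J_unif (k : ℕ) : ∃ C X0 : ℝ, 1 ≤ C ∧ 1 ≤ X0 ∧ ∀ T : ℝ, X0 ≤ T → ∀ r : ℝ, 0 ≤ r → r ≤ 1 / 4 →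
    J k r T ≤ C * (T + J k 0 (2 * T)) := by
  obtain ⟨C1, hC1, h1⟩ := cmp_zeta k (u := 1) le_rfl (ε := 1) one_pos
  obtain ⟨C3, hC3, h3⟩ := Br_le k
  obtain ⟨X0, hX0, hBA⟩ := BA k (η := 1) one_pos le_rfl
  obtain ⟨F, hF, hfar⟩ := far k
  refine ⟨4 + 6 * C1 + 4 * F + C1 * (1 + 3 * C3), X0, by nlinarith, hX0, fun T hTX r h0 hr => ?_⟩
  have hT1 : 1 ≤ T := hX0.trans hTX
  have hT0 : 0 < T := by linarith
  obtain ⟨T1, a1, a2, a3⟩ := hBA T hTX
  have hT11 : 1 ≤ T1 := hT1.trans a1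
  have hT12 : T1 ≤ 2 * T := by linarith
  obtain ⟨-, b1⟩ := h1 T1 hT11 r h0 hr
  obtain ⟨b2, -⟩ := h1 T1 hT11 0 le_rfl (by norm_num)
  have b3 := h3 T1 r h0 hr
  have hsd := SD_of_PG (H_PG k (u := 1) le_rfl) hT11
  have b4 := hsd.sq_le (by norm_num) h0 (r := r) (by push_cast; linarith)
  have e1 : ((1:ℕ) : ℝ) = 1 := by norm_num
  rw [e1, ← Nn_eq, ← Nn_eq] at b4
  have b5 := hfar T1 hT11
  have hJ2 := J_nonneg k 0 (T := 2 * T) (by linarith)
  have hJ1 : J k 0 T1 ≤ J k 0 (2 * T) := J_mono k (by norm_num) hT12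
  have hBr : Br k 0 T1 ≤ J k 0 (2 * T) + 2 := by
    have h4 : T ^ (-(3 / 4 : ℝ)) ≤ 1 := Real.rpow_le_one_of_one_le_of_nonpos hT1 (by norm_num)
    have h5 : T ^ (-(3 / 4 : ℝ)) * J k 0 (2 * T) ≤ 1 * J k 0 (2 * T) := by gcongr
    linarith
  have hBr0 := Br_nonneg k 0 T1
  obtain ⟨X, hX⟩ : ∃ X, X = T + J k 0 (2 * T) := ⟨_, rfl⟩
  have c1 : 1 + Br k 0 T1 ≤ 3 * X := by rw [hX]; linarith
  have c2 : 1 + Br k r T1 ≤ (1 + 3 * C3) * X := by
    have h6 : C3 * (1 + Br k 0 T1) ≤ C3 * (3 * X) := by gcongr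
    have h7 : 1 ≤ X := by rw [hX]; linarith
    calc 1 + Br k r T1 ≤ X + C3 * (3 * X) := by linarith
      _ = _ := by ring
  have c3 : Nn k 1 0 T1 ≤ 2 * X + C1 * (3 * X) := by
    have h6 : C1 * (1 + Br k 0 T1) ≤ C1 * (3 * X) := by gcongr
    have h7 : J k 0 T1 ≤ X := by rw [hX]; linarith
    linarith
  have c4 : F * T1 ≤ F * (2 * X) := by
    gcongr
    rw [hX]; linarith
  have c5 : C1 * (1 + Br k r T1) ≤ C1 * ((1 + 3 * C3) * X) := by gcongr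
  have c6 : J k r T ≤ J k r T1 := J_mono k hr a1
  rw [← hX]
  have e2 : (4 + 6 * C1 + 4 * F + C1 * (1 + 3 * C3)) * X =
      (1 + 1) * ((2 * X + C1 * (3 * X)) + F * (2 * X)) + C1 * ((1 + 3 * C3) * X) := by ring
  rw [e2]
  have c7 : (1 + 1) * Nn k 1 r T1 ≤ (1 + 1) * ((2 * X + C1 * (3 * X)) + F * (2 * X)) := by
    gcongr
    linarith
  linarith

end

end Pool.Agent.U575.OL
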