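import Pool.Agent.Y746.CS.Fin1
import Pool.Agent.U575.JO.Jx
import Pool.Agent.U575.PL.Unif
import Pool.Agent.W182.KO.Diag

set_option autoImplicit false

/-! Shifted moments near the line: definitions, and the truncated ones. -/

namespace Pool.Agent.U575.PL

open MeasureTheory Filter Topology Complex Pool.Agent.N748.MG Pool.Agent.U575.RO Pool.Agent.U575.JO

noncomputable section

/-- `n ↦ n^(-ic)` on the positive integers -/
def power (c : ℝ) : ArithmeticFunction ℂ :=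
  ⟨fun n => if n = 0 then 0 else (n : ℂ) ^ (-((c : ℂ) * Complex.I)), by simp⟩

/-- `τ_{-ia}(n) = ∑_{d_1 ⋯ d_k = n} ∏_j d_j^(-i a_j)` -/
def tau {k : ℕ} (a : Fin k → ℝ) : ArithmeticFunction ℂ := ∏ j, power (a j)

/-- the diagonal series -/
def diag {k l : ℕ} (a : Fin k → ℝ) (b : Fin l → ℝ) (δ : ℝ) : ℂ :=
  ∑' n : ℕ, tau a n * (starRingEnd ℂ) (tau b n) * (((n : ℝ) ^ (-1 - 2 * δ) : ℝ) : ℂ)

/-- the integrand -/
def G {k l : ℕ} (a : Fin k → ℝ) (b : Fin l → ℝ) (δ t : ℝ) : ℂ :=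
  (∏ j, riemannZeta (pw δ (t + a j))) * ∏ j, riemannZeta (pw δ (-(t + b j)))

/-- the shifted moment -/
def SM {k l : ℕ} (a : Fin k → ℝ) (b : Fin l → ℝ) (δ T : ℝ) : ℂ := ∫ t in (0:ℝ)..T, G a b δ t

/-- the shifts, together -/
def hh {k l : ℕ} (a : Fin k → ℝ) (b : Fin l → ℝ) : Fin k ⊕ Fin l → ℝ := Sum.elim a b

lemma G_norm {k l : ℕ} (a : Fin k → ℝ) (b : Fin l → ℝ) (δ t : ℝ) : ‖G a b δ t‖ = ∏ i, mz δ (t + hh a b i) := by
  unfold G hh
  rw [norm_mul, norm_prod, norm_prod, Fintype.prod_sum_type]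
  congr 1
  refine Finset.prod_congr rfl fun j _ => ?_
  exact mz_even δ (t + b j)

lemma G_cont {k l : ℕ} (a : Fin k → ℝ) (b : Fin l → ℝ) {δ : ℝ} (h0 : δ ≤ 1 / 16) : Continuous (G a b δ) := by
  unfold G
  have hz := Pool.Agent.N438.MJ.Tr.contZ h0
  refine Continuous.mul (continuous_finsetProd _ fun j _ => hz.comp (by fun_prop))
    (continuous_finsetProd _ fun j _ => hz.comp (by fun_prop))

/-- the points of `(0, T]` at which all the factors are at most `V` -/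
def good {k l : ℕ} (a : Fin k → ℝ) (b : Fin l → ℝ) (δ V T : ℝ) : Set ℝ :=
  {t | t ∈ Set.Ioc 0 T ∧ ∀ i, mz δ (t + hh a b i) ≤ V}

lemma sp_eq (δ t : ℝ) : Pool.Agent.Y746.OA.sp δ t = pw δ t := by
  unfold Pool.Agent.Y746.OA.sp pw
  push_cast
  ring

lemma zneg (δ t : ℝ) : riemannZeta (pw δ (-t)) = (starRingEnd ℂ) (riemannZeta (pw δ t)) := by
  rw [← riemannZeta_conj]
  congr 1
  unfold pw
  simp [Complex.ext_iff]

lemma tw_power (c : ℝ) : Pool.Agent.Y746.CS.tw1 1 c = power c := by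
  ext n
  show (Pool.Agent.H306R2.dv 1 n : ℂ) * (n : ℂ) ^ (-((c : ℂ) * Complex.I)) =
    if n = 0 then 0 else (n : ℂ) ^ (-((c : ℂ) * Complex.I))
  split_ifs with h0
  · subst h0; simp [Pool.Agent.H306R2.dv]
  · have := Pool.Agent.Y746.OA.dA_one_apply (Nat.one_le_iff_ne_zero.mpr h0)
    rw [Pool.Agent.H306R2.dA_apply] at this
    rw [this]; simp

lemma Tk_tau {m : ℕ} (x : Fin m → ℝ) : Pool.Agent.Y746.CS.Tk x = tau x := by
  unfold Pool.Agent.Y746.CS.Tk tau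
  exact Finset.prod_congr rfl fun j _ => tw_power (x j)

lemma diag_eq {k l : ℕ} (a : Fin k → ℝ) (b : Fin l → ℝ) (δ : ℝ) :
    ∑' n : ℕ, Pool.Agent.Y746.CS.Tk a n * (starRingEnd ℂ) (Pool.Agent.Y746.CS.Tk b n) *
      Pool.Agent.Y746.CS.wt δ n = diag a b δ := by
  unfold diag Pool.Agent.Y746.CS.wt
  rw [Tk_tau, Tk_tau]
  refine tsum_congr fun n => ?_
  congr 3
  ring

/-- **truncated shifted moments** -/
theorem trc (k l : ℕ) : ∃ c : ℝ, 0 < c ∧ ∀ B : ℕ, ∃ (A : ℕ) (C T0 : ℝ), 0 < C ∧ ∀ T : ℝ, T0 ≤ T → ∀ δ : ℝ,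
    C * Real.log (Real.log T) / Real.log T ≤ δ → δ ≤ 1 / 16 → ∀ V : ℝ, Real.log T ^ A ≤ V → V ≤ T ^ (c * δ) →
    ∀ (a : Fin k → ℝ) (b : Fin l → ℝ), (∀ j, |a j| ≤ T) → (∀ j, |b j| ≤ T) →
    ‖(∫ t in good a b δ V T, G a b δ t) - T * diag a b δ‖ ≤ T / Real.log T ^ B ∧
    (volume (Set.Ioc 0 T \ good a b δ V T)).toReal ≤ T / Real.log T ^ B := by
  obtain ⟨c, hc, h⟩ := Pool.Agent.Y746.CS.cx k l
  refine ⟨c, hc, fun B => ?_⟩
  obtain ⟨A, C, T0, hC, h2⟩ := h B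
  refine ⟨A, C, T0, hC, fun T hT δ hδ hδ1 V hV1 hV2 a b ha hb => ?_⟩
  obtain ⟨g1, g2⟩ := h2 T hT δ hδ hδ1 V hV1 hV2 a b ha hb
  simp only [sp_eq] at g1 g2
  have hset : ∀ t : ℝ, ((∀ j, ‖riemannZeta (pw δ (t + a j))‖ ≤ V) ∧ ∀ j, ‖riemannZeta (pw δ (t + b j))‖ ≤ V) ↔
      ∀ i, mz δ (t + hh a b i) ≤ V := by
    intro t
    rw [Sum.forall]
    exact Iff.rfl
  have hG : ∀ t : ℝ, (∏ j, riemannZeta (pw δ (t + a j))) * (starRingEnd ℂ) (∏ j, riemannZeta (pw δ (t + b j))) =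
      G a b δ t := by
    intro t
    unfold G
    rw [map_prod]
    congr 1
    exact Finset.prod_congr rfl fun j _ => (zneg δ (t + b j)).symm
  simp only [hset, hG, diag_eq] at g1 g2
  refine ⟨g1, ?_⟩
  have e : Set.Ioc 0 T \ good a b δ V T = {t | t ∈ Set.Ioc 0 T ∧ ¬ ∀ i, mz δ (t + hh a b i) ≤ V} := by
    ext t
    constructor
    · rintro ⟨h1, h2⟩
      exact ⟨h1, fun h3 => h2 ⟨h1, h3⟩⟩
    · rintro ⟨h1, h2⟩
      exact ⟨h1, fun h3 => h2 h3.2⟩
  rw [e]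
  exact g2

lemma good_meas {k l : ℕ} (a : Fin k → ℝ) (b : Fin l → ℝ) {δ : ℝ} (h0 : δ ≤ 1 / 16) (V T : ℝ) :
    MeasurableSet (good a b δ V T) := by
  have : good a b δ V T = Set.Ioc 0 T ∩ ⋂ i, {t : ℝ | mz δ (t + hh a b i) ≤ V} := by
    ext t
    simp [good]
  rw [this]
  refine measurableSet_Ioc.inter (MeasurableSet.iInter fun i => measurableSet_le ?_ measurable_const)
  exact ((TMA.cont h0).comp (continuous_id.add continuous_const)).measurable

/-! ### no shifts -/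

lemma power_zero (n : ℕ) : power 0 n = ((Pool.Agent.H306R2.zR n : ℝ) : ℂ) := by
  show (if n = 0 then (0:ℂ) else (n : ℂ) ^ (-(((0:ℝ) : ℂ) * Complex.I))) = _
  unfold Pool.Agent.H306R2.zR
  simp only [ArithmeticFunction.natCoe_apply, ArithmeticFunction.zeta_apply]
  split_ifs with h
  · simp
  · simp

lemma power_pow (k : ℕ) : ∀ n : ℕ, ((power 0) ^ k) n = (((Pool.Agent.H306R2.zR ^ k) n : ℝ) : ℂ) := by
  induction k with
  | zero =>
      intro n
      rw [pow_zero, pow_zero, ArithmeticFunction.one_apply, ArithmeticFunction.one_apply]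
      split_ifs <;> simp
  | succ k ih =>
      intro n
      rw [pow_succ', pow_succ', ArithmeticFunction.mul_apply, ArithmeticFunction.mul_apply, Complex.ofReal_sum]
      refine Finset.sum_congr rfl fun p _ => ?_
      rw [ih, power_zero]
      push_cast
      rfl

lemma tau_zero (k : ℕ) (n : ℕ) : tau (fun _ : Fin k => 0) n = ((Pool.Agent.H306R2.dv k n : ℝ) : ℂ) := by
  unfold tau
  rw [Finset.prod_const, Finset.card_univ, Fintype.card_fin, power_pow, ← Pool.Agent.H306R2.dA_nat,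
    Pool.Agent.H306R2.dA_apply]

/-- without shifts the diagonal series is the sum of the squares of the divisor function -/
lemma diag_zero (k : ℕ) (δ : ℝ) : diag (fun _ : Fin k => 0) (fun _ : Fin k => 0) δ = ((OL.Sinf k δ : ℝ) : ℂ) := by
  unfold diag OL.Sinf
  rw [Complex.ofReal_tsum]
  refine tsum_congr fun n => ?_
  unfold OL.DR Pool.Agent.TH535.SM.dr
  rw [Pool.Agent.W182.KO.dk_eq, tau_zero, Complex.conj_ofReal]
  have e : -1 - 2 * δ = -(2 * (1 / 2 + δ)) := by ring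
  rw [e]
  push_cast
  ring

lemma G_zero (k : ℕ) (δ t : ℝ) :
    G (fun _ : Fin k => 0) (fun _ : Fin k => 0) δ t = ((mz δ t ^ (2 * (k:ℝ)) : ℝ) : ℂ) := by
  unfold G
  simp only [add_zero]
  rw [Finset.prod_const, Finset.prod_const, Finset.card_univ, Fintype.card_fin, ← mul_pow, zneg, Complex.mul_conj,
    Complex.normSq_eq_norm_sq, ← Complex.ofReal_pow, ← pow_mul, ← Real.rpow_natCast]
  unfold mz
  push_cast
  rfl

/-- without shifts the shifted moment is the moment -/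
lemma SM_zero (k : ℕ) (δ T : ℝ) : SM (fun _ : Fin k => 0) (fun _ : Fin k => 0) δ T = ((MR k δ T : ℝ) : ℂ) := by
  unfold SM MR
  rw [← intervalIntegral.integral_ofReal]
  congr 1
  funext t
  exact G_zero k δ t

end

end Pool.Agent.U575.PL
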