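import Pool.Agent.U575.PL.Thm2
import Pool.Agent.N748.MJ.BND
import Pool.Agent.N748.MJ.GVB
import Pool.Agent.N748.MJ.LZB
import Pool.Agent.N748.MJ.DIA2V
import Pool.Agent.N748.MJ.POSV
import Pool.Agent.N748.MJ.SRF
import Pool.Agent.N748.MG.Res

set_option autoImplicit false

/-! Shifts proportional to the distance to the line. -/

namespace Pool.Agent.U575.PL

open MeasureTheory Filter Topology Complex Set Pool.Agent.N748.MG Pool.Agent.U575.RO Pool.Agent.U575.JO
  Pool.Agent.U575.OL Pool.Agent.N748.MJ.SRF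

noncomputable section

lemma power_apply (c : ℝ) {n : ℕ} (hn : n ≠ 0) : power c n = (n : ℂ) ^ (-(I * (c : ℂ))) := by
  show (if n = 0 then (0:ℂ) else (n : ℂ) ^ (-((c : ℂ) * Complex.I))) = _
  rw [if_neg hn, mul_comm (c : ℂ) I]

lemma tau_mj : ∀ (k : ℕ) (a : Fin k → ℝ) (n : ℕ),
    tau a n = Pool.Agent.N748.MJ.tau (fun j => -(I * (a j : ℂ))) n
  | 0, a, n => by
      unfold tau Pool.Agent.N748.MJ.tau
      simp only [Finset.univ_eq_empty, Finset.prod_empty]
      rw [ArithmeticFunction.one_apply]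
      split_ifs with h
      · subst h
        rw [Nat.finMulAntidiag_one]
        simp
      · rw [Nat.finMulAntidiag_zero_left h]
        simp
  | k + 1, a, n => by
      have ih := tau_mj k (fun j => a j.succ)
      have e1 : tau a n = ∑ p ∈ n.divisorsAntidiagonal, power (a 0) p.1 * tau (fun j => a j.succ) p.2 := by
        unfold tau
        rw [Fin.prod_univ_succ, ArithmeticFunction.mul_apply]
      rw [e1]
      unfold Pool.Agent.N748.MJ.tau
      rw [Pool.Agent.W182.KO.antidiag_succ (fun j (m : ℕ) => (m : ℂ) ^ (-(I * (a j : ℂ)))) n]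
      refine Finset.sum_congr rfl fun p hp => ?_
      rw [Nat.mem_divisorsAntidiagonal] at hp
      have h0 : p.1 ≠ 0 := fun h => hp.2 (by rw [← hp.1, h, zero_mul])
      rw [power_apply _ h0, ih]
      rfl

lemma diag_ZS {k : ℕ} (a b : Fin k → ℝ) (δ : ℝ) : diag a b δ = Pool.Agent.N748.MJ.ZS a b (1 / 2 + δ) := by
  unfold diag Pool.Agent.N748.MJ.ZS
  refine tsum_congr fun n => ?_
  have e : -(2 * (1 / 2 + δ)) = -1 - 2 * δ := by ring
  rw [tau_mj, tau_mj, Pool.Agent.N438.MJ.Tau.conj_tau, e]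
  ring

/-- one factor -/
lemma ks_fac {d : ℝ → ℝ} (h0 : Tendsto d atTop (𝓝 0)) (hp : ∀ᶠ T : ℝ in atTop, 0 < d T) (x : ℝ) :
    Tendsto (fun T : ℝ => (2 * (d T : ℂ)) * riemannZeta (1 + 2 * (d T : ℂ) * (1 + I * x))) atTop
      (𝓝 (1 + I * x)⁻¹) := by
  have hx : (1 : ℂ) + I * x ≠ 0 := by
    intro h0
    have := congrArg Complex.re h0
    simp at this
  have h1 : Tendsto (fun T : ℝ => (1 : ℂ) + 2 * (d T : ℂ) * (1 + I * x)) atTop (𝓝[≠] 1) := by
    rw [tendsto_nhdsWithin_iff]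
    constructor
    · have h2 : Tendsto (fun T : ℝ => (1 : ℂ) + 2 * (d T : ℂ) * (1 + I * x)) atTop
          (𝓝 ((1 : ℂ) + 2 * ((0 : ℝ) : ℂ) * (1 + I * x))) := by
        refine tendsto_const_nhds.add (Tendsto.mul_const _ (Tendsto.const_mul _ ?_))
        exact (Complex.continuous_ofReal.tendsto 0).comp h0
      simpa using h2
    · filter_upwards [hp] with T hT
      rw [Set.mem_compl_iff, Set.mem_singleton_iff, add_eq_left]
      refine mul_ne_zero (mul_ne_zero two_ne_zero ?_) hx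
      exact_mod_cast hT.ne'
  have h2 := riemannZeta_residue_one.comp h1
  have h4 := h2.mul_const ((1 : ℂ) + I * x)⁻¹
  rw [one_mul] at h4
  refine h4.congr fun T => ?_
  simp only [Function.comp_apply]
  field_simp
  ring

lemma sm_l' {k : ℕ} (i : Fin k) : Pool.Agent.N748.MJ.sm (fun _ => 1 / 2) (nn k) (Fin.castAdd k i) = 0 := by
  unfold Pool.Agent.N748.MJ.sm
  rw [nn_l]
  norm_num

lemma sm_r' {k : ℕ} (i : Fin k) : Pool.Agent.N748.MJ.sm (fun _ => 1 / 2) (nn k) (Fin.natAdd k i) = 1 := by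
  unfold Pool.Agent.N748.MJ.sm
  rw [nn_r]
  norm_num

/-- the limiting constant -/
def KC {k : ℕ} (α β : Fin k → ℝ) : ℂ := ∏ j, ∏ l, (1 + I * (((α j - β l) / 2 : ℝ) : ℂ))⁻¹

lemma exp_LM {k : ℕ} (a b : Fin k → ℝ) {δ : ℝ} (hδ : 0 < δ) (hδ1 : δ ≤ 1 / 16) :
    Complex.exp (Pool.Agent.N748.MJ.LM (Pool.Agent.N748.MJ.sp (fun _ => 1 / 2) (nn k))
      (Pool.Agent.N748.MJ.sm (fun _ => 1 / 2) (nn k)) (Fin.append a b) δ) =
    ∏ j, ∏ l, riemannZeta (((1 + 2 * δ : ℝ) : ℂ) + ((a j - b l : ℝ) : ℂ) * I) := by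
  have e : Pool.Agent.N748.MJ.LM (Pool.Agent.N748.MJ.sp (fun _ => 1 / 2) (nn k))
      (Pool.Agent.N748.MJ.sm (fun _ => 1 / 2) (nn k)) (Fin.append a b) δ =
      ∑ j, ∑ l, Pool.Agent.N748.MJ.LZ (1 + 2 * δ) (a j - b l) := by
    unfold Pool.Agent.N748.MJ.LM
    rw [Fin.sum_univ_add]
    simp only [Fin.sum_univ_add, sp_l, sp_r, sm_l', sm_r', Fin.append_left, Fin.append_right, zero_mul,
      Finset.sum_const_zero, zero_add, add_zero, one_mul]
  rw [e, Complex.exp_sum]
  refine Finset.prod_congr rfl fun j _ => ?_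
  rw [Complex.exp_sum]
  exact Finset.prod_congr rfl fun l _ => (Pool.Agent.N748.MJ.LZB.main δ hδ hδ1 _).2

theorem gvb' : Pool.Agent.N748.MJ.S_GVB := Pool.Agent.N748.MJ.GVB.main Pool.Agent.N748.MJ.BND.main

theorem dia2v' : Pool.Agent.N748.MJ.S_DIA2V :=
  Pool.Agent.N748.MJ.DIA2V.main Pool.Agent.N748.MJ.BND.main gvb' Pool.Agent.N748.MJ.LZB.main

/-- **the diagonal series with shifts proportional to the distance** -/
theorem ks_diag {k : ℕ} {d : ℝ → ℝ} (h0 : Tendsto d atTop (𝓝 0)) (hp : ∀ᶠ T : ℝ in atTop, 0 < d T)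
    (α β : Fin k → ℝ) : Tendsto (fun T : ℝ => (((2 * d T) ^ ((k:ℝ) ^ 2) : ℝ) : ℂ) *
      diag (fun j => d T * α j) (fun j => d T * β j) (d T)) atTop (𝓝 ((H306R2.aF k : ℂ) * KC α β)) := by
  set s : Fin (k + k) → ℂ := Pool.Agent.N748.MJ.sp (fun _ => 1 / 2) (nn k) with hs
  set r : Fin (k + k) → ℂ := Pool.Agent.N748.MJ.sm (fun _ => 1 / 2) (nn k) with hr
  set h : ℝ → Fin (k + k) → ℝ := fun T => Fin.append (fun j => d T * α j) (fun j => d T * β j) with hh
  -- the arithmetic factor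
  have hsum : ∑ j, s j = k := by
    rw [hs, Fin.sum_univ_add]
    simp only [sp_l, sp_r]
    simp
  have hsum2 : ∑ j, r j = k := by
    rw [hr, Fin.sum_univ_add]
    simp only [sm_l', sm_r']
    simp
  have hht : Tendsto h atTop (𝓝 (fun _ => (0:ℝ))) := by
    rw [tendsto_pi_nhds]
    intro j
    induction j using Fin.addCases with
    | left i =>
        have := h0.mul_const (α i)
        rw [zero_mul] at this
        refine this.congr fun T => ?_
        rw [hh]; simp only [Fin.append_left]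
    | right i =>
        have := h0.mul_const (β i)
        rw [zero_mul] at this
        refine this.congr fun T => ?_
        rw [hh]; simp only [Fin.append_right]
  have hal : Tendsto (fun T => Pool.Agent.N748.MJ.aV s r (h T)) atTop (𝓝 (H306R2.aF k : ℂ)) := by
    have h2 := (((Pool.Agent.N748.MJ.POSV.conv Pool.Agent.N748.MJ.BND.main gvb') (k + k)).tendsto
      ((s, r, fun _ => (0 : ℝ)) : (Fin (k + k) → ℂ) × (Fin (k + k) → ℂ) × (Fin (k + k) → ℝ))).comp
      ((tendsto_const_nhds (x := s)).prodMk_nhds ((tendsto_const_nhds (x := r)).prodMk_nhds hht))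
    have h3 := (Pool.Agent.N748.MJ.POSV.av0 Pool.Agent.N748.MJ.BND.main gvb') (k + k) s r (by rw [hsum, hsum2])
    rw [hsum] at h3
    simp only [h3] at h2
    have h4 : aC (k:ℂ) = ((H306R2.aF k : ℝ) : ℂ) := by
      have := (aC_akR (k : ℝ)).2
      rw [Complex.ofReal_natCast] at this
      exact this
    rw [h4] at h2
    exact h2
  -- the main term
  have hmain : Tendsto (fun T : ℝ => (((2 * d T) ^ ((k:ℝ) ^ 2) : ℝ) : ℂ) *
      Complex.exp (Pool.Agent.N748.MJ.LM s r (h T) (d T))) atTop (𝓝 (KC α β)) := by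
    have h1 : Tendsto (fun T : ℝ => ∏ j : Fin k, ∏ l : Fin k, ((2 * (d T : ℂ)) *
        riemannZeta (1 + 2 * (d T : ℂ) * (1 + I * (((α j - β l) / 2 : ℝ) : ℂ))))) atTop (𝓝 (KC α β)) := by
      unfold KC
      exact tendsto_finsetProd _ fun j _ => tendsto_finsetProd _ fun l _ => ks_fac h0 hp _
    refine h1.congr' ?_
    filter_upwards [hp, h0.eventually_le_const (show (0:ℝ) < 1 / 16 by norm_num)] with T g1 g2
    rw [hs, hr, hh]
    simp only
    rw [exp_LM _ _ g1 g2]
    simp only [Finset.prod_mul_distrib, Finset.prod_const, Finset.card_univ, Fintype.card_fin]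
    have e2 : ((2 * d T) ^ ((k : ℝ) ^ 2) : ℝ) = ((2 * d T) ^ k) ^ k := by
      rw [← pow_mul, ← pow_two, ← Real.rpow_natCast (2 * d T) (k ^ 2)]
      push_cast
      rfl
    rw [e2]
    have e3 : ∀ j l : Fin k, (1 + 2 * (d T : ℂ) * (1 + I * (((α j - β l) / 2 : ℝ) : ℂ)) : ℂ) =
        ((1 + 2 * d T : ℝ) : ℂ) + ((d T * α j - d T * β l : ℝ) : ℂ) * I := by
      intro j l
      push_cast
      ring
    simp only [e3]
    push_cast
    rw [mul_pow, mul_pow]
  -- the comparison
  have hcmp : Tendsto (fun T : ℝ => Complex.exp (-(Pool.Agent.N748.MJ.LM s r (h T) (d T))) *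
      diag (fun j => d T * α j) (fun j => d T * β j) (d T)) atTop (𝓝 (H306R2.aF k : ℂ)) := by
    refine Tendsto.congr_dist hal ?_
    rw [Metric.tendsto_nhds]
    intro ε hε
    obtain ⟨δ0, hδ0, hb⟩ := dia2v' (k + k) 1 zero_le_one (ε / 2) (by positivity)
    filter_upwards [hp, h0.eventually_le_const hδ0] with T g1 g2
    have h5 := hb (d T) g1 g2 s r (h T) (fun j => by
      induction j using Fin.addCases with
      | left i => rw [hs, sp_l]; simp
      | right i => rw [hs, sp_r]; simp) (fun j => by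
      induction j using Fin.addCases with
      | left i => rw [hr, sm_l']; simp
      | right i => rw [hr, sm_r']; simp)
    rw [Real.dist_eq, sub_zero, abs_of_nonneg dist_nonneg, dist_comm, dist_eq_norm, diag_ZS,
      ZS_eq _ _ g1]
    refine h5.trans_lt ?_
    linarith
  have h6 := hcmp.mul hmain
  refine h6.congr fun T => ?_
  have h7 : Complex.exp (-(Pool.Agent.N748.MJ.LM s r (h T) (d T))) *
      Complex.exp (Pool.Agent.N748.MJ.LM s r (h T) (d T)) = 1 := by
    rw [← Complex.exp_add]; simp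
  calc _ = (Complex.exp (-(Pool.Agent.N748.MJ.LM s r (h T) (d T))) *
      Complex.exp (Pool.Agent.N748.MJ.LM s r (h T) (d T))) * ((((2 * d T) ^ ((k:ℝ) ^ 2) : ℝ) : ℂ) *
      diag (fun j => d T * α j) (fun j => d T * β j) (d T)) := by ring
    _ = _ := by rw [h7, one_mul]

end

end Pool.Agent.U575.PL
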