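import Pool.Agent.U575.PL.Ks

set_option autoImplicit false

/-! Shifts proportional to the distance to the line: the equivalences. -/

namespace Pool.Agent.U575.PL

open MeasureTheory Filter Topology Complex Set Pool.Agent.N748.MG Pool.Agent.U575.RO Pool.Agent.U575.JO
  Pool.Agent.U575.OL

noncomputable section

/-- the normalised moment with shifts proportional to the distance -/
def KM {k : ℕ} (α β : Fin k → ℝ) (d T : ℝ) : ℂ :=
  (((2 * d) ^ ((k:ℝ) ^ 2) * (1 / T) : ℝ) : ℂ) * SM (fun j => d * α j) (fun j => d * β j) d T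

/-- the asymptotics along a path of distances -/
def LeadP (k : ℕ) (d : ℝ → ℝ) : Prop := ∀ ε : ℝ, 0 < ε → ∀ᶠ T : ℝ in atTop, ∀ a b : Fin k → ℝ, Adm1 T a b →
  ‖SM a b (d T) T - T * diag a b (d T)‖ ≤ ε * (T * (2 * d T) ^ (-((k : ℝ) ^ 2)))

lemma lead_ks {k : ℕ} {d : ℝ → ℝ} (h0 : Tendsto d atTop (𝓝 0)) (hp : ∀ᶠ T : ℝ in atTop, 0 < d T)
    (hL : LeadP k d) (α β : Fin k → ℝ) :
    Tendsto (fun T : ℝ => KM α β (d T) T) atTop (𝓝 ((H306R2.aF k : ℂ) * KC α β)) := by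
  refine Tendsto.congr_dist (ks_diag h0 hp α β) ?_
  rw [Metric.tendsto_nhds]
  intro ε hε
  obtain ⟨M, hM⟩ : ∃ M, M = ∑ j, |α j| + ∑ j, |β j| := ⟨_, rfl⟩
  have hα : ∀ j, |α j| ≤ M := by
    intro j
    have h1 := Finset.single_le_sum (f := fun j => |α j|) (fun j _ => abs_nonneg _) (Finset.mem_univ j)
    have h2 : 0 ≤ ∑ j, |β j| := Finset.sum_nonneg fun j _ => abs_nonneg _
    linarith
  have hβ : ∀ j, |β j| ≤ M := by
    intro j
    have h1 := Finset.single_le_sum (f := fun j => |β j|) (fun j _ => abs_nonneg _) (Finset.mem_univ j)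
    have h2 : 0 ≤ ∑ j, |α j| := Finset.sum_nonneg fun j _ => abs_nonneg _
    linarith
  filter_upwards [hL (ε / 2) (by positivity), hp, h0.eventually_le_const (show (0:ℝ) < 1 by norm_num),
    eventually_ge_atTop M, eventually_gt_atTop 0] with T h1 h2 h3 h4 h5
  have hsm : ∀ x : ℝ, |x| ≤ M → |d T * x| ≤ T := by
    intro x hx
    rw [abs_mul, abs_of_pos h2]
    have := abs_nonneg x
    nlinarith
  have h6 := h1 (fun j => d T * α j) (fun j => d T * β j) ⟨fun j => hsm _ (hα j), fun j => hsm _ (hβ j)⟩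
  have h2d : 0 < 2 * d T := by linarith
  have hw : 0 < (2 * d T) ^ ((k:ℝ) ^ 2) := Real.rpow_pos_of_pos h2d _
  rw [Real.dist_eq, sub_zero, abs_of_nonneg dist_nonneg, dist_comm, dist_eq_norm]
  unfold KM
  have e : (((2 * d T) ^ ((k:ℝ) ^ 2) * (1 / T) : ℝ) : ℂ) * SM (fun j => d T * α j) (fun j => d T * β j) (d T) T -
      (((2 * d T) ^ ((k:ℝ) ^ 2) : ℝ) : ℂ) * diag (fun j => d T * α j) (fun j => d T * β j) (d T) =
      (((2 * d T) ^ ((k:ℝ) ^ 2) * (1 / T) : ℝ) : ℂ) * (SM (fun j => d T * α j) (fun j => d T * β j) (d T) T -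
        T * diag (fun j => d T * α j) (fun j => d T * β j) (d T)) := by
    have hT : (T : ℂ) ≠ 0 := by exact_mod_cast h5.ne'
    push_cast
    field_simp
  rw [e, norm_mul, Complex.norm_real, Real.norm_of_nonneg (by positivity)]
  calc (2 * d T) ^ ((k:ℝ) ^ 2) * (1 / T) * ‖SM (fun j => d T * α j) (fun j => d T * β j) (d T) T -
        T * diag (fun j => d T * α j) (fun j => d T * β j) (d T)‖ ≤
        (2 * d T) ^ ((k:ℝ) ^ 2) * (1 / T) * (ε / 2 * (T * (2 * d T) ^ (-((k : ℝ) ^ 2)))) := by gcongr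
    _ = ε / 2 := by
        rw [Real.rpow_neg h2d.le]
        field_simp
    _ < ε := by linarith

lemma KC_zero (k : ℕ) : KC (fun _ : Fin k => 0) (fun _ => 0) = 1 := by
  unfold KC
  simp

lemma KM_zero (k : ℕ) (d T : ℝ) : KM (fun _ : Fin k => 0) (fun _ => 0) d T =
    (((2 * d) ^ ((k:ℝ) ^ 2) * (1 / T * MR k d T) : ℝ) : ℂ) := by
  unfold KM
  simp only [mul_zero]
  rw [SM_zero]
  push_cast
  ring

lemma ks_real {k : ℕ} {d : ℝ → ℝ}
    (h : Tendsto (fun T : ℝ => KM (fun _ : Fin k => 0) (fun _ => 0) (d T) T) atTop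
      (𝓝 ((H306R2.aF k : ℂ) * KC (fun _ : Fin k => 0) (fun _ => 0)))) :
    Tendsto (fun T : ℝ => (2 * d T) ^ ((k:ℝ) ^ 2) * (1 / T * MR k (d T) T)) atTop (𝓝 (H306R2.aF k)) := by
  rw [KC_zero, mul_one] at h
  simp only [KM_zero] at h
  have h2 := (Complex.continuous_re.tendsto _).comp h
  rw [Complex.ofReal_re] at h2
  refine h2.congr fun T => ?_
  simp only [Function.comp_apply, Complex.ofReal_re]

/-- the case of the problem: opposite shifts -/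
def KQ (k : ℕ) (α d T : ℝ) : ℂ :=
  (((2 * d) ^ ((k:ℝ) ^ 2) * (1 / T) : ℝ) : ℂ) * ∫ t in (0:ℝ)..T,
    riemannZeta (1 / 2 + d + I * (d * α) + I * t) ^ k * riemannZeta (1 / 2 + d + I * (d * α) - I * t) ^ k

lemma KQ_eq (k : ℕ) (α d T : ℝ) : KQ k α d T = KM (fun _ : Fin k => α) (fun _ => -α) d T := by
  unfold KQ KM SM G pw
  congr 2
  funext t
  rw [Finset.prod_const, Finset.prod_const, Finset.card_univ, Fintype.card_fin]
  congr 3
  · push_cast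
    ring
  · push_cast
    ring

lemma KC_opp (k : ℕ) (α : ℝ) : KC (fun _ : Fin k => α) (fun _ => -α) = (1 + I * α) ^ (-((k : ℂ) ^ 2)) := by
  unfold KC
  rw [Finset.prod_const, Finset.prod_const, Finset.card_univ, Fintype.card_fin, ← pow_mul, ← pow_two]
  have e : (α - -α) / 2 = α := by ring
  rw [e, Complex.cpow_neg, inv_pow]
  congr 1
  rw [← Complex.cpow_natCast]
  push_cast
  rfl

/-- powers of the logarithm -/
lemma one_polylog {d : ℝ → ℝ} (hd : ∀ᶠ T : ℝ in atTop, 1 / Real.log T ≤ 2 * d T) {κ a : ℝ}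
    (h : Tendsto (fun T : ℝ => (2 * d T) ^ (κ ^ 2) * (1 / T * MR κ (d T) T)) atTop (𝓝 a)) :
    ∀ᶠ T : ℝ in atTop, MR κ (d T) T ≤ T * Real.log T ^ (κ ^ 2 + 1) := by
  filter_upwards [hd, h.eventually_le_const (show a < |a| + 1 by have := le_abs_self a; linarith),
    Real.tendsto_log_atTop.eventually_ge_atTop (|a| + 1), eventually_gt_atTop 0] with T h1 h2 h3 h4
  have hB : 0 < |a| + 1 := by positivity
  have hL : 0 < Real.log T := by linarith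
  have h2d : 0 < 2 * d T := lt_of_lt_of_le (by positivity) h1
  have hp : 0 < (2 * d T) ^ (κ ^ 2) := Real.rpow_pos_of_pos h2d _
  have e1 : MR κ (d T) T ≤ (|a| + 1) * T * ((2 * d T) ^ (κ ^ 2))⁻¹ := by
    have : MR κ (d T) T =
        ((2 * d T) ^ (κ ^ 2) * (1 / T * MR κ (d T) T)) * T * ((2 * d T) ^ (κ ^ 2))⁻¹ := by
      field_simp
    rw [this]
    gcongr
  have e2 : ((2 * d T) ^ (κ ^ 2))⁻¹ ≤ Real.log T ^ (κ ^ 2) := by
    rw [← Real.inv_rpow h2d.le]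
    refine Real.rpow_le_rpow (by positivity) ?_ (sq_nonneg κ)
    rw [inv_le_comm₀ h2d hL, ← one_div]
    exact h1
  calc MR κ (d T) T ≤ (|a| + 1) * T * ((2 * d T) ^ (κ ^ 2))⁻¹ := e1
    _ ≤ Real.log T * T * Real.log T ^ (κ ^ 2) := by gcongr
    _ = T * Real.log T ^ (κ ^ 2 + 1) := by rw [Real.rpow_add hL, Real.rpow_one]; ring

/-! ### the equivalences -/

/-- all proportional shifts -/
def KL (c : ℝ → ℝ) (k : ℕ) : Prop := ∀ δ : ℝ, 0 < δ → ∀ α β : Fin k → ℝ,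
  Tendsto (fun T : ℝ => KM α β (δ * c T / Real.log T) T) atTop (𝓝 ((H306R2.aF k : ℂ) * KC α β))

/-- opposite shifts -/
def KO (c : ℝ → ℝ) (k : ℕ) : Prop := ∀ δ : ℝ, 0 < δ → ∀ α : ℝ,
  Tendsto (fun T : ℝ => KQ k α (δ * c T / Real.log T) T) atTop (𝓝 ((H306R2.aF k : ℂ) * (1 + I * α) ^ (-((k : ℂ) ^ 2))))

lemma opp_zero {k : ℕ} {d : ℝ → ℝ} (h : ∀ α : ℝ, Tendsto (fun T : ℝ => KQ k α (d T) T) atTop
    (𝓝 ((H306R2.aF k : ℂ) * (1 + I * α) ^ (-((k : ℂ) ^ 2))))) :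
    Tendsto (fun T : ℝ => (2 * d T) ^ ((k:ℝ) ^ 2) * (1 / T * MR k (d T) T)) atTop (𝓝 (H306R2.aF k)) := by
  refine ks_real ?_
  have h1 := h 0
  simp only [KQ_eq, ← KC_opp, neg_zero] at h1
  exact h1

variable {c : ℝ → ℝ} {S K : ℝ}

theorem tfae_ks (h : S1 c S K) {k : ℕ} (hk : 1 ≤ k) : List.TFAE [RO.Line c k, KL c k, KO c k, RO.Near c k] := by
  tfae_have 1 → 2 := by
    intro hL δ hδ α β
    have hl := line_lead h hk hL
    exact lead_ks (h.oδ δ) (h.dl hδ).pos (fun ε hε => hl δ ε hδ hε) α β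
  tfae_have 2 → 3 := by
    intro hK δ hδ α
    simp only [KQ_eq, ← KC_opp]
    exact hK δ hδ _ _
  tfae_have 3 → 4 := fun hK δ hδ => opp_zero (hK δ hδ)
  tfae_have 4 → 1 := by
    intro hN
    exact poly_line1 h fun δ hδ => ⟨_, one_polylog (h.dl hδ).inv (hN δ hδ)⟩
  tfae_finish

/-- all large multiples of `log log T / log T` -/
def PKL (k : ℕ) : Prop := ∃ C0 : ℝ, ∀ C : ℝ, C0 ≤ C → ∀ α β : Fin k → ℝ,
  Tendsto (fun T : ℝ => KM α β (dC C T) T) atTop (𝓝 ((H306R2.aF k : ℂ) * KC α β))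

def PKO (k : ℕ) : Prop := ∃ C0 : ℝ, ∀ C : ℝ, C0 ≤ C → ∀ α : ℝ,
  Tendsto (fun T : ℝ => KQ k α (dC C T) T) atTop (𝓝 ((H306R2.aF k : ℂ) * (1 + I * α) ^ (-((k : ℂ) ^ 2))))

def PN (k : ℕ) : Prop := ∃ C : ℝ, 0 < C ∧
  Tendsto (fun T : ℝ => (2 * dC C T) ^ ((k:ℝ) ^ 2) * (1 / T * MR k (dC C T) T)) atTop (𝓝 (H306R2.aF k))

theorem tfae_pks {k : ℕ} (hk : 1 ≤ k) : List.TFAE [PLine k, PKL k, PKO k, PN k] := by
  tfae_have 1 → 2 := by
    intro hL
    obtain ⟨C0, h0⟩ := pline_plead hk hL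
    refine ⟨max C0 1, fun C hC α β => ?_⟩
    have hC1 : 1 ≤ C := (le_max_right _ _).trans hC
    exact lead_ks (ll_small C) (dC_pos (by linarith)) (fun ε hε => h0 C ((le_max_left _ _).trans hC) ε hε) α β
  tfae_have 2 → 3 := by
    rintro ⟨C0, h0⟩
    refine ⟨C0, fun C hC α => ?_⟩
    simp only [KQ_eq, ← KC_opp]
    exact h0 C hC _ _
  tfae_have 3 → 4 := by
    rintro ⟨C0, h0⟩
    have hC1 : (1:ℝ) ≤ max C0 1 := le_max_right _ _
    exact ⟨max C0 1, by linarith, opp_zero (h0 _ (le_max_left _ _))⟩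
  tfae_have 4 → 1 := by
    rintro ⟨C, hC, h⟩
    exact ppoly_pline ⟨C, _, hC, one_polylog (dC_inv' hC) h⟩
  tfae_finish

/-! ### the Lindelöf hypothesis -/

theorem LH_ks : List.TFAE [
    MU.LH,
    ∃ d : ℝ → ℝ, Dl d ∧ ∀ k : ℕ, 1 ≤ k → ∀ α β : Fin k → ℝ,
      Tendsto (fun T : ℝ => KM α β (d T) T) atTop (𝓝 ((H306R2.aF k : ℂ) * KC α β)),
    ∃ d : ℝ → ℝ, Dl d ∧ ∀ k : ℕ, 1 ≤ k → ∀ α : ℝ,
      Tendsto (fun T : ℝ => KQ k α (d T) T) atTop (𝓝 ((H306R2.aF k : ℂ) * (1 + I * α) ^ (-((k : ℂ) ^ 2)))),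
    ∃ d : ℝ → ℝ, Dl d ∧ ∀ k : ℕ, 1 ≤ k →
      Tendsto (fun T : ℝ => (2 * d T) ^ ((k:ℝ) ^ 2) * (1 / T * MR k (d T) T)) atTop (𝓝 (H306R2.aF k))] := by
  tfae_have 1 → 2 := by
    intro h
    obtain ⟨d, hd, hL⟩ := LH_dist h
    have hl := dl_of_ad hd
    refine ⟨d, hl, fun k hk α β => ?_⟩
    obtain ⟨Cs, -, hc⟩ := crit hk
    refine lead_ks hl.1 hl.pos (fun ε hε => ?_) α β
    filter_upwards [hc d hl.1 (hl.ge Cs) (hL k hk) ε hε] with T hT a b hab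
    exact hT a b hab.1 hab.2
  tfae_have 2 → 3 := by
    rintro ⟨d, hd, h⟩
    refine ⟨d, hd, fun k hk α => ?_⟩
    simp only [KQ_eq, ← KC_opp]
    exact h k hk _ _
  tfae_have 3 → 4 := by
    rintro ⟨d, hd, h⟩
    exact ⟨d, hd, fun k hk => opp_zero (h k hk)⟩
  tfae_have 4 → 1 := by
    rintro ⟨d, hd, h⟩
    exact LH_of_poly' hd.pos hd.1 fun k hk => ⟨_, one_polylog hd.inv (h k hk)⟩
  tfae_finish

end

end Pool.Agent.U575.PL
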