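import Pool.Agent.U575.PL.Crit
import Pool.Agent.U575.JO.Two

set_option autoImplicit false

/-! Shifted moments near the line and moments on the line: the equivalences. -/

namespace Pool.Agent.U575.PL

open MeasureTheory Filter Topology Complex Set Pool.Agent.N748.MG Pool.Agent.U575.RO Pool.Agent.U575.JO
  Pool.Agent.U575.OL

noncomputable section

/-- the scales -/
structure S1 (c : ℝ → ℝ) (S K : ℝ) : Prop where
  mono : MonotoneOn c (Ici S)
  big : Tendsto (fun T => c T / Real.log (Real.log T)) atTop atTop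
  small : Tendsto (fun T => c T / Real.log T) atTop (𝓝 0)
  Kpos : 0 < K
  dbl : ∀ᶠ T : ℝ in atTop, c (2 * T) ≤ K * c T

variable {c : ℝ → ℝ} {S K : ℝ}

lemma S1.ge (h : S1 c S K) (a : ℝ) : ∀ᶠ T : ℝ in atTop, a * Real.log (Real.log T) ≤ c T := by
  filter_upwards [h.big.eventually_ge_atTop a, ll_top'.eventually_gt_atTop 0] with T h1 h2
  rwa [le_div_iff₀ h2] at h1

lemma S1.top (h : S1 c S K) : Tendsto c atTop atTop :=
  tendsto_atTop_mono' _ ((h.ge 1).mono fun T h => by linarith) ll_top'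

lemma S1.oδ (h : S1 c S K) (δ : ℝ) : Tendsto (fun T => δ * c T / Real.log T) atTop (𝓝 0) := by
  have := h.small.const_mul δ
  rw [mul_zero] at this
  refine this.congr fun T => ?_
  ring

lemma S1.dl (h : S1 c S K) {δ : ℝ} (hδ : 0 < δ) : Dl (fun T => δ * c T / Real.log T) := by
  refine ⟨h.oδ δ, (h.big.const_mul_atTop hδ).congr' ?_⟩
  filter_upwards [Real.tendsto_log_atTop.eventually_gt_atTop 0] with T h1
  field_simp

theorem line_two1 (h : S1 c S K) {k : ℕ} (hk : 1 ≤ k) (hL : RO.Line c k) {δ : ℝ} (hδ : 0 < δ) :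
    Tendsto (fun T : ℝ => (2 * (δ * c T / Real.log T)) ^ ((k:ℝ) ^ 2) *
      (1 / T * MR k (δ * c T / Real.log T) (2 * T))) atTop (𝓝 (2 * H306R2.aF k)) := by
  have ht := h.top
  have hK := h.Kpos
  obtain ⟨e, he⟩ : ∃ e : ℝ, e = δ / K ^ 2 := ⟨_, rfl⟩
  have he0 : 0 < e := by rw [he]; positivity
  obtain ⟨C, hC⟩ := hL e he0
  have h2 : Tendsto (fun T : ℝ => 2 * T) atTop atTop := tendsto_id.const_mul_atTop two_pos
  have h4 : Tendsto (fun T : ℝ => 4 * T) atTop atTop := tendsto_id.const_mul_atTop four_pos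
  refine near_two hk (d := fun T => δ * c T / Real.log T) (h.oδ δ) ?_ (θ := 1) zero_le_one one_lt_two
    (C := 4 * |C|) ?_
  · refine (ht.const_mul_atTop hδ).congr' ?_
    filter_upwards [Real.tendsto_log_atTop.eventually_gt_atTop 0] with T h1
    field_simp
  · filter_upwards [h4.eventually hC, h.dbl, h2.eventually h.dbl, Real.tendsto_log_atTop.eventually_ge_atTop 1,
      eventually_gt_atTop 0] with T h1 h3 h5 h6 h7
    rw [MR_nat] at h1
    have e1 : δ * c T / Real.log T * Real.log T = δ * c T := by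
      have : Real.log T ≠ 0 := by linarith
      field_simp
    rw [e1, one_mul]
    have e2 : (2:ℝ) * (2 * T) = 4 * T := by ring
    rw [e2] at h5
    have e3 : e * c (4 * T) ≤ δ * c T := by
      calc e * c (4 * T) ≤ e * (K * (K * c T)) := by
            gcongr
            exact h5.trans (by gcongr)
        _ = δ * c T := by rw [he]; field_simp
    have e4 : 1 ≤ Real.log T ^ (k ^ 2) := one_le_pow₀ h6
    calc J k 0 (4 * T) ≤ C * (4 * T) * Real.exp (e * c (4 * T)) := h1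
      _ ≤ |C| * (4 * T) * Real.exp (δ * c T) := by gcongr; exact le_abs_self C
      _ = 4 * |C| * (T * 1) * Real.exp (δ * c T) := by ring
      _ ≤ _ := by gcongr

lemma poly_line1 (h : S1 c S K) {k : ℕ} (hP : RO.Poly c k) : RO.Line c k := by
  intro δ hδ
  have ht := h.top
  have hK := h.Kpos
  obtain ⟨e, he⟩ : ∃ e : ℝ, e = δ / (4 * (k + 1) * K) := ⟨_, rfl⟩
  have he0 : 0 < e := by rw [he]; positivity
  obtain ⟨A, hA⟩ := hP e he0
  obtain ⟨m, hm⟩ := exists_nat_ge A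
  have h2 : Tendsto (fun T : ℝ => 2 * T) atTop atTop := tendsto_id.const_mul_atTop two_pos
  obtain ⟨C', hC', hc⟩ := conv2 k m (c := fun T => e * c T) (cb := fun T => e * c T)
    ((ht.eventually_ge_atTop 0).mono fun T h => by positivity) (Eventually.of_forall fun _ => le_rfl) (S := S)
    (fun x hx y hy hxy => mul_le_mul_of_nonneg_left (h.mono hx hy hxy) he0.le) (by
      have hs : (0:ℝ) < 1 / (64 * (k + 1)) := by positivity
      filter_upwards [h2.eventually (ev_c_small (c := fun T => e * c T) (h.oδ e) hs), eventually_ge_atTop 2] with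
        T hT hT2
      have hT0 : 0 < T := by linarith
      have h3 : Real.log (2 * T) ≤ 2 * Real.log T := by
        have h4 : Real.log (2 * T) ≤ Real.log (T ^ 2) := Real.log_le_log (by positivity) (by nlinarith)
        rw [Real.log_pow] at h4
        exact_mod_cast h4
      calc 2 * (k + 1) * (e * c (2 * T)) ≤ 2 * (k + 1) * (1 / (64 * (k + 1)) * Real.log (2 * T)) := by gcongr
        _ = 1 / 32 * Real.log (2 * T) := by field_simp; ring
        _ ≤ 1 / 32 * (2 * Real.log T) := by gcongr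
        _ = _ := by ring)
    (ev_c_small (c := fun T => e * c T) (h.oδ e) (by norm_num : (0:ℝ) < 1 / 4)) (C := 1) (by
      filter_upwards [hA, Real.tendsto_log_atTop.eventually_ge_atTop 1, eventually_gt_atTop 0] with T h1 h3 h4
      rw [MR_nat] at h1
      refine h1.trans ?_
      rw [one_mul]
      refine mul_le_mul_of_nonneg_left ?_ h4.le
      rw [← Real.rpow_natCast]
      exact Real.rpow_le_rpow_of_exponent_le h3 hm)
  refine ⟨C', ?_⟩
  filter_upwards [hc, h.dbl, h.ge (2 * m / δ), Real.tendsto_log_atTop.eventually_gt_atTop 0,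
    eventually_gt_atTop 0] with T h1 h3 h4 h5 h6
  rw [MR_nat]
  refine h1.trans ?_
  have e1 : Real.log T ^ m = Real.exp (m * Real.log (Real.log T)) := by
    rw [← Real.rpow_natCast, Real.rpow_def_of_pos h5, mul_comm]
  have e2 : 2 * (k + 1) * (e * c (2 * T)) ≤ δ / 2 * c T := by
    calc 2 * (k + 1) * (e * c (2 * T)) ≤ 2 * (k + 1) * (e * (K * c T)) := by gcongr
      _ = δ / 2 * c T := by rw [he]; field_simp; ring
  have e3 : m * Real.log (Real.log T) ≤ δ / 2 * c T := by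
    calc m * Real.log (Real.log T) = δ / 2 * (2 * m / δ * Real.log (Real.log T)) := by field_simp
      _ ≤ δ / 2 * c T := by gcongr
  calc C' * (T * Real.log T ^ m) * Real.exp (2 * (k + 1) * (e * c (2 * T))) =
        C' * T * (Real.exp (m * Real.log (Real.log T)) * Real.exp (2 * (k + 1) * (e * c (2 * T)))) := by
        rw [e1]; ring
    _ = C' * T * Real.exp (m * Real.log (Real.log T) + 2 * (k + 1) * (e * c (2 * T))) := by rw [Real.exp_add]
    _ ≤ C' * T * Real.exp (δ * c T) := by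
        gcongr
        linarith

/-! ### polynomial bounds -/

lemma two_polylog {d : ℝ → ℝ} (hd : ∀ᶠ T : ℝ in atTop, 1 / Real.log T ≤ 2 * d T) {κ a : ℝ}
    (h : Tendsto (fun T : ℝ => (2 * d T) ^ (κ ^ 2) * (1 / T * MR κ (d T) (2 * T))) atTop (𝓝 a)) :
    ∀ᶠ T : ℝ in atTop, MR κ (d T) (2 * T) ≤ T * Real.log T ^ (κ ^ 2 + 1) := by
  have hB : 0 < |a| + 1 := by positivity
  filter_upwards [hd, h.eventually_le_const (show a < |a| + 1 by have := le_abs_self a; linarith),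
    Real.tendsto_log_atTop.eventually_ge_atTop (|a| + 1), eventually_gt_atTop 0] with T h1 h2 h3 h4
  have hL : 0 < Real.log T := by linarith
  have h2d : 0 < 2 * d T := lt_of_lt_of_le (by positivity) h1
  have hp : 0 < (2 * d T) ^ (κ ^ 2) := Real.rpow_pos_of_pos h2d _
  have e1 : MR κ (d T) (2 * T) ≤ (|a| + 1) * T * ((2 * d T) ^ (κ ^ 2))⁻¹ := by
    have : MR κ (d T) (2 * T) =
        ((2 * d T) ^ (κ ^ 2) * (1 / T * MR κ (d T) (2 * T))) * T * ((2 * d T) ^ (κ ^ 2))⁻¹ := by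
      field_simp
    rw [this]
    gcongr
  have e2 : ((2 * d T) ^ (κ ^ 2))⁻¹ ≤ Real.log T ^ (κ ^ 2) := by
    rw [← Real.inv_rpow h2d.le]
    refine Real.rpow_le_rpow (by positivity) ?_ (sq_nonneg κ)
    rw [inv_le_comm₀ h2d hL, ← one_div]
    exact h1
  calc MR κ (d T) (2 * T) ≤ (|a| + 1) * T * ((2 * d T) ^ (κ ^ 2))⁻¹ := e1
    _ ≤ Real.log T * T * Real.log T ^ (κ ^ 2) := by gcongr
    _ = T * Real.log T ^ (κ ^ 2 + 1) := by rw [Real.rpow_add hL, Real.rpow_one]; ring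

lemma inv_le_log {d : ℝ → ℝ} (h : ∀ᶠ T : ℝ in atTop, Real.log (Real.log T) ≤ d T * Real.log T) :
    ∀ᶠ T : ℝ in atTop, 1 / Real.log T ≤ 2 * d T := by
  filter_upwards [h, ll_top'.eventually_ge_atTop 1, Real.tendsto_log_atTop.eventually_gt_atTop 0] with T h1 h2 h3
  rw [div_le_iff₀ h3]
  linarith

lemma Dl.inv {d : ℝ → ℝ} (h : Dl d) : ∀ᶠ T : ℝ in atTop, 1 / Real.log T ≤ 2 * d T :=
  inv_le_log ((h.ge 1).mono fun T h => by linarith)

lemma Sinf_le {k : ℕ} (hk : 1 ≤ k) {d : ℝ → ℝ} (h0 : Tendsto d atTop (𝓝 0)) (hp : ∀ᶠ T : ℝ in atTop, 0 < d T) :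
    ∀ᶠ T : ℝ in atTop, Sinf k (d T) ≤ (H306R2.aF k + 1) * (2 * d T) ^ (-((k:ℝ) ^ 2)) := by
  have h1 : Tendsto d atTop (𝓝[>] 0) := tendsto_nhdsWithin_iff.2 ⟨h0, hp⟩
  have h2 := (Sinf_lim hk).comp h1
  filter_upwards [h2.eventually_le_const (show H306R2.aF k < H306R2.aF k + 1 by linarith), hp] with T h3 h4
  simp only [Function.comp_apply] at h3
  have e : (2 * d T) ^ ((k:ℝ) ^ 2) = (2 * d T) ^ (k ^ 2) := by
    rw [← Real.rpow_natCast (2 * d T) (k ^ 2)]
    push_cast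
    rfl
  rw [Real.rpow_neg (by linarith), e, ← div_eq_mul_inv, le_div_iff₀ (by positivity)]
  exact h3

/-- from the shifted moments to the moment -/
lemma poly_from {k : ℕ} (hk : 1 ≤ k) {d : ℝ → ℝ} (h0 : Tendsto d atTop (𝓝 0)) (hp : ∀ᶠ T : ℝ in atTop, 0 < d T)
    (hl : ∀ᶠ T : ℝ in atTop, 1 / Real.log T ≤ 2 * d T) {A : ℝ}
    (h : ∀ᶠ T : ℝ in atTop, ‖SM (fun _ : Fin k => 0) (fun _ : Fin k => 0) (d T) T -
      T * diag (fun _ : Fin k => 0) (fun _ : Fin k => 0) (d T)‖ ≤ T * Real.log T ^ A) :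
    ∃ A' : ℝ, ∀ᶠ T : ℝ in atTop, MR k (d T) T ≤ T * Real.log T ^ A' := by
  have hk0 : (0:ℝ) < k := by exact_mod_cast hk
  have ha := H306R2.aF_pos hk0
  refine ⟨max A ((k:ℝ) ^ 2) + 1, ?_⟩
  filter_upwards [h, hl, hp, Sinf_le hk h0 hp, Real.tendsto_log_atTop.eventually_ge_atTop (H306R2.aF k + 2),
    eventually_gt_atTop 0] with T h1 h2 h3 h4 h5 h6
  have hL0 : 0 < Real.log T := by linarith
  have hL1 : 1 ≤ Real.log T := by linarith
  have h2d : 0 < 2 * d T := by linarith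
  rw [SM_zero, diag_zero, ← Complex.ofReal_mul, ← Complex.ofReal_sub, Complex.norm_real] at h1
  have h7 := (abs_le.1 h1).2
  have h8 : (2 * d T) ^ (-((k:ℝ) ^ 2)) ≤ Real.log T ^ ((k:ℝ) ^ 2) := by
    rw [Real.rpow_neg h2d.le, ← Real.inv_rpow h2d.le]
    refine Real.rpow_le_rpow (by positivity) ?_ (sq_nonneg _)
    rw [inv_le_comm₀ h2d hL0, ← one_div]
    exact h2
  have e1 : Real.log T ^ A ≤ Real.log T ^ max A ((k:ℝ) ^ 2) :=
    Real.rpow_le_rpow_of_exponent_le hL1 (le_max_left _ _)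
  have e2 : Real.log T ^ ((k:ℝ) ^ 2) ≤ Real.log T ^ max A ((k:ℝ) ^ 2) :=
    Real.rpow_le_rpow_of_exponent_le hL1 (le_max_right _ _)
  calc MR k (d T) T ≤ T * Real.log T ^ A + T * Sinf k (d T) := by linarith
    _ ≤ T * Real.log T ^ max A ((k:ℝ) ^ 2) + T * ((H306R2.aF k + 1) * Real.log T ^ max A ((k:ℝ) ^ 2)) := by
        gcongr
        exact h4.trans (by gcongr; exact h8.trans e2)
    _ = T * ((H306R2.aF k + 2) * Real.log T ^ max A ((k:ℝ) ^ 2)) := by ring
    _ ≤ T * (Real.log T * Real.log T ^ max A ((k:ℝ) ^ 2)) := by gcongr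
    _ = _ := by rw [Real.rpow_add hL0, Real.rpow_one]; ring

/-! ### the scales -/

/-- all shifts up to `T` -/
def Adm1 {k l : ℕ} (T : ℝ) (a : Fin k → ℝ) (b : Fin l → ℝ) : Prop := (∀ j, |a j| ≤ T) ∧ ∀ j, |b j| ≤ T

/-- the shifted moments of order `2k`, with the precision of the largest one -/
def Lead (c : ℝ → ℝ) (k : ℕ) : Prop := ∀ δ ε : ℝ, 0 < δ → 0 < ε → ∀ᶠ T : ℝ in atTop, ∀ a b : Fin k → ℝ, Adm1 T a b →
  ‖SM a b (δ * c T / Real.log T) T - T * diag a b (δ * c T / Real.log T)‖ ≤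
    ε * (T * (2 * (δ * c T / Real.log T)) ^ (-((k : ℝ) ^ 2)))

/-- the shifted moments, up to every power of the logarithm -/
def Full (c : ℝ → ℝ) (k l : ℕ) : Prop := ∀ δ B : ℝ, 0 < δ → ∀ᶠ T : ℝ in atTop, ∀ (a : Fin k → ℝ) (b : Fin l → ℝ),
  Adm1 T a b → ‖SM a b (δ * c T / Real.log T) T - T * diag a b (δ * c T / Real.log T)‖ ≤ T * Real.log T ^ (-B)

/-- along a path of distances -/
theorem full_path {d : ℝ → ℝ} (hd : Dl d) {K' : ℕ} {A0 : ℝ}
    (hM : ∀ᶠ T : ℝ in atTop, MR K' (d T) (2 * T) ≤ T * Real.log T ^ A0) {k l : ℕ} (hkl : k + l < 2 * K') (B : ℝ) :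
    ∀ᶠ T : ℝ in atTop, ∀ (a : Fin k → ℝ) (b : Fin l → ℝ), Adm1 T a b →
      ‖SM a b (d T) T - T * diag a b (d T)‖ ≤ T * Real.log T ^ (-B) := by
  obtain ⟨C, T0, hC, h⟩ := untr k l K' hkl A0 B
  filter_upwards [hd.ge C, hd.1.eventually_le_const (show (0:ℝ) < 1 / 16 by norm_num), hM, eventually_ge_atTop T0,
    Real.tendsto_log_atTop.eventually_gt_atTop 0] with T h1 h2 h3 h4 h5 a b hab
  exact h T h4 (d T) (by rwa [div_le_iff₀ h5]) h2 h3 a b hab.1 hab.2

lemma line_full (h : S1 c S K) {K' : ℕ} (hL : RO.Line c K') {k l : ℕ} (hkl : k + l < 2 * K') : Full c k l := by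
  intro δ B hδ
  have hd := h.dl hδ
  exact full_path hd (two_polylog hd.inv
    (line_two1 h (by omega) hL hδ)) hkl B

lemma line_lead (h : S1 c S K) {k : ℕ} (hk : 1 ≤ k) (hL : RO.Line c k) : Lead c k := by
  intro δ ε hδ hε
  obtain ⟨Cs, -, hc⟩ := crit hk
  filter_upwards [hc (fun T => δ * c T / Real.log T) (h.oδ δ) ((h.dl hδ).ge Cs) (line_two1 h hk hL hδ) ε hε] with
    T hT a b hab
  exact hT a b hab.1 hab.2

lemma adm1_zero {k l : ℕ} {T : ℝ} (hT : 0 ≤ T) : Adm1 T (fun _ : Fin k => 0) (fun _ : Fin l => 0) :=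
  ⟨fun _ => by rwa [abs_zero], fun _ => by rwa [abs_zero]⟩

lemma lead_poly (h : S1 c S K) {k : ℕ} (hk : 1 ≤ k) (hS : Lead c k) : RO.Poly c k := by
  intro δ hδ
  have hd := h.dl hδ
  have hl := hd.inv
  refine poly_from hk hd.1 hd.pos hl (A := (k:ℝ) ^ 2) ?_
  filter_upwards [hS δ 1 hδ one_pos, hd.pos, hl, Real.tendsto_log_atTop.eventually_gt_atTop 0,
    eventually_ge_atTop 0] with T h1 h2 h3 h4 h5
  refine (h1 _ _ (adm1_zero h5)).trans ?_
  rw [one_mul]
  refine mul_le_mul_of_nonneg_left ?_ h5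
  have h2d : 0 < 2 * (δ * c T / Real.log T) := by linarith
  rw [Real.rpow_neg h2d.le, ← Real.inv_rpow h2d.le]
  refine Real.rpow_le_rpow (by positivity) ?_ (sq_nonneg _)
  rw [inv_le_comm₀ h2d h4, ← one_div]
  exact h3

lemma full_poly (h : S1 c S K) {k : ℕ} (hk : 1 ≤ k) (hS : Full c k k) : RO.Poly c k := by
  intro δ hδ
  have hd := h.dl hδ
  have hl := hd.inv
  refine poly_from hk hd.1 hd.pos hl (A := 0) ?_
  filter_upwards [hS δ 0 hδ, eventually_ge_atTop 0] with T h1 h5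
  refine (h1 _ _ (adm1_zero h5)).trans ?_
  rw [neg_zero]

theorem tfae1 (h : S1 c S K) {k : ℕ} (hk : 1 ≤ k) : List.TFAE [RO.Line c k, Lead c k, RO.Poly c k] := by
  tfae_have 1 → 2 := line_lead h hk
  tfae_have 2 → 3 := lead_poly h hk
  tfae_have 3 → 1 := poly_line1 h
  tfae_finish

theorem tfae2 (h : S1 c S K) : List.TFAE [∀ k : ℕ, 1 ≤ k → RO.Line c k, ∀ k l : ℕ, Full c k l,
    ∀ k : ℕ, 1 ≤ k → Lead c k] := by
  tfae_have 1 → 2 := fun hL k l => line_full h (hL (k + l + 1) (by omega)) (by omega)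
  tfae_have 2 → 1 := fun hS k hk => poly_line1 h (full_poly h hk (hS k k))
  tfae_have 1 → 3 := fun hL k hk => line_lead h hk (hL k hk)
  tfae_have 3 → 1 := fun hS k hk => poly_line1 h (lead_poly h hk (hS k hk))
  tfae_finish

end

end Pool.Agent.U575.PL
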