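import Pool.Agent.U575.PL.Thm
import Pool.Agent.U575.JO.Sh

set_option autoImplicit false

/-! Powers of the logarithm, and the Lindelöf hypothesis. -/

namespace Pool.Agent.U575.PL

open MeasureTheory Filter Topology Complex Set Pool.Agent.N748.MG Pool.Agent.U575.RO Pool.Agent.U575.JO
  Pool.Agent.U575.OL

noncomputable section

/-- the distance `C log log T / log T` -/
def dC (C T : ℝ) : ℝ := C * Real.log (Real.log T) / Real.log T

lemma ll_small (C : ℝ) : Tendsto (dC C) atTop (𝓝 0) := by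
  have h := (Real.isLittleO_log_id_atTop.tendsto_div_nhds_zero.comp Real.tendsto_log_atTop).const_mul C
  rw [mul_zero] at h
  refine h.congr fun T => ?_
  unfold dC
  simp only [Function.comp_apply, id]
  ring

lemma dC_mul (C : ℝ) : ∀ᶠ T : ℝ in atTop, dC C T * Real.log T = C * Real.log (Real.log T) := by
  filter_upwards [Real.tendsto_log_atTop.eventually_gt_atTop 0] with T h
  unfold dC
  field_simp

/-- the moment on the line is `T` times a power of the logarithm -/
def PLine (k : ℕ) : Prop := ∃ A : ℝ, ∀ᶠ T : ℝ in atTop, MR k 0 T ≤ T * Real.log T ^ A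

/-- at all large multiples of `log log T / log T` -/
def PLead (k : ℕ) : Prop := ∃ C0 : ℝ, ∀ C : ℝ, C0 ≤ C → ∀ ε : ℝ, 0 < ε → ∀ᶠ T : ℝ in atTop, ∀ a b : Fin k → ℝ,
  Adm1 T a b → ‖SM a b (dC C T) T - T * diag a b (dC C T)‖ ≤ ε * (T * (2 * dC C T) ^ (-((k : ℝ) ^ 2)))

/-- a power of the logarithm at one distance -/
def PPoly (k : ℕ) : Prop := ∃ C A : ℝ, 0 < C ∧ ∀ᶠ T : ℝ in atTop, MR k (dC C T) T ≤ T * Real.log T ^ A

/-- all terms, uniformly in the distance -/
def PFull (k l : ℕ) : Prop := ∀ B : ℝ, ∃ C T0 : ℝ, 0 < C ∧ ∀ T : ℝ, T0 ≤ T → ∀ δ : ℝ, dC C T ≤ δ → δ ≤ 1 / 16 →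
  ∀ (a : Fin k → ℝ) (b : Fin l → ℝ), Adm1 T a b → ‖SM a b δ T - T * diag a b δ‖ ≤ T * Real.log T ^ (-B)

lemma pline_pfull {k l K : ℕ} (hkl : k + l < 2 * K) (h : PLine K) : PFull k l := by
  obtain ⟨A, hA⟩ := h
  intro B
  obtain ⟨C, T0, hC, h1⟩ := pl_line k l K hkl (A0 := A) (hA.mono fun T h => by rwa [MR_nat] at h) B
  exact ⟨C, T0, hC, fun T hT δ h2 h3 a b hab => h1 T hT δ h2 h3 a b hab.1 hab.2⟩

lemma pline_plead {k : ℕ} (hk : 1 ≤ k) (h : PLine k) : PLead k := by
  obtain ⟨A, hA⟩ := h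
  obtain ⟨Cs, hCs, hc⟩ := crit hk
  obtain ⟨A1, hA1⟩ : ∃ A1, A1 = max A 0 := ⟨_, rfl⟩
  have hA10 : 0 ≤ A1 := by rw [hA1]; exact le_max_right _ _
  have hA01 : A ≤ A1 := by rw [hA1]; exact le_max_left _ _
  have h4 : Tendsto (fun T : ℝ => 4 * T) atTop atTop := tendsto_id.const_mul_atTop four_pos
  refine ⟨max Cs A1, fun C hC ε hε => ?_⟩
  have hCC : Cs ≤ C := (le_max_left _ _).trans hC
  have hCA : A1 ≤ C := (le_max_right _ _).trans hC
  have hC0 : 0 < C := by linarith
  have hlim := near_two hk (d := dC C) (ll_small C) (by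
      refine (ll_top'.const_mul_atTop hC0).congr' ?_
      filter_upwards [dC_mul C] with T h
      exact h.symm) (θ := 1) zero_le_one one_lt_two (C := 4 * 2 ^ A1) (by
    filter_upwards [h4.eventually hA, dC_mul C, Real.tendsto_log_atTop.eventually_ge_atTop 1,
      eventually_ge_atTop 4, ll_top'.eventually_gt_atTop 0] with T h1 h2 h3 h5 h6
    have hT0 : 0 < T := by linarith
    have hL0 : 0 < Real.log T := by linarith
    rw [MR_nat] at h1
    rw [h2, one_mul]
    have h9 : Real.log (4 * T) ≤ 2 * Real.log T := by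
      have h10 : Real.log (4 * T) ≤ Real.log (T ^ 2) := Real.log_le_log (by positivity) (by nlinarith)
      rw [Real.log_pow] at h10
      exact_mod_cast h10
    have h10 : 1 ≤ Real.log (4 * T) := h3.trans (Real.log_le_log hT0 (by linarith))
    have h11 : Real.log T ^ A1 ≤ Real.exp (C * Real.log (Real.log T)) := by
      rw [Real.rpow_def_of_pos hL0, Real.exp_le_exp, mul_comm]
      gcongr
    have h12 : 1 ≤ Real.log T ^ (k ^ 2) := one_le_pow₀ h3
    calc J k 0 (4 * T) ≤ 4 * T * Real.log (4 * T) ^ A := h1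
      _ ≤ 4 * T * Real.log (4 * T) ^ A1 := by
          gcongr
      _ ≤ 4 * T * (2 * Real.log T) ^ A1 := by gcongr
      _ = 4 * 2 ^ A1 * (T * 1) * Real.log T ^ A1 := by rw [Real.mul_rpow two_pos.le hL0.le]; ring
      _ ≤ 4 * 2 ^ A1 * (T * Real.log T ^ (k ^ 2)) * Real.exp (C * Real.log (Real.log T)) := by gcongr)
  have hge : ∀ᶠ T : ℝ in atTop, Cs * Real.log (Real.log T) ≤ dC C T * Real.log T := by
    filter_upwards [dC_mul C, ll_top'.eventually_gt_atTop 0] with T h1 h2
    rw [h1]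
    gcongr
  filter_upwards [hc (dC C) (ll_small C) hge hlim ε hε] with T hT a b hab
  exact hT a b hab.1 hab.2

lemma dC_pos {C : ℝ} (hC : 0 < C) : ∀ᶠ T : ℝ in atTop, 0 < dC C T := by
  filter_upwards [ll_top'.eventually_gt_atTop 0, Real.tendsto_log_atTop.eventually_gt_atTop 0] with T h1 h2
  unfold dC
  positivity

lemma dC_inv {C : ℝ} (hC : 1 ≤ C) : ∀ᶠ T : ℝ in atTop, 1 / Real.log T ≤ 2 * dC C T := by
  refine inv_le_log ?_
  filter_upwards [dC_mul C, ll_top'.eventually_gt_atTop 0] with T h1 h2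
  rw [h1]
  nlinarith

lemma dC_inv' {C : ℝ} (hC : 0 < C) : ∀ᶠ T : ℝ in atTop, 1 / Real.log T ≤ 2 * dC C T := by
  filter_upwards [ll_top'.eventually_ge_atTop (1 / C), Real.tendsto_log_atTop.eventually_gt_atTop 0] with T h1 h2
  unfold dC
  rw [div_le_iff₀ h2]
  have h3 : 1 ≤ C * Real.log (Real.log T) := by
    rw [div_le_iff₀ hC] at h1
    linarith
  have e : 2 * (C * Real.log (Real.log T) / Real.log T) * Real.log T = 2 * (C * Real.log (Real.log T)) := by
    field_simp
  rw [e]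
  linarith

lemma plead_ppoly {k : ℕ} (hk : 1 ≤ k) (h : PLead k) : PPoly k := by
  obtain ⟨C0, h⟩ := h
  obtain ⟨C, hC⟩ : ∃ C, C = max C0 1 := ⟨_, rfl⟩
  have hC1 : 1 ≤ C := by rw [hC]; exact le_max_right _ _
  have hC0 : C0 ≤ C := by rw [hC]; exact le_max_left _ _
  obtain ⟨A', hA'⟩ := poly_from hk (ll_small C) (dC_pos (by linarith)) (dC_inv hC1) (A := (k:ℝ) ^ 2) (by
    filter_upwards [h C hC0 1 one_pos, dC_pos (C := C) (by linarith), dC_inv hC1,
      Real.tendsto_log_atTop.eventually_gt_atTop 0, eventually_ge_atTop 0] with T h1 h2 h3 h4 h5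
    refine (h1 _ _ (adm1_zero h5)).trans ?_
    rw [one_mul]
    refine mul_le_mul_of_nonneg_left ?_ h5
    have h2d : 0 < 2 * dC C T := by linarith
    rw [Real.rpow_neg h2d.le, ← Real.inv_rpow h2d.le]
    refine Real.rpow_le_rpow (by positivity) ?_ (sq_nonneg _)
    rw [inv_le_comm₀ h2d h4, ← one_div]
    exact h3)
  exact ⟨C, A', by linarith, hA'⟩

lemma pfull_ppoly {k : ℕ} (hk : 1 ≤ k) (h : PFull k k) : PPoly k := by
  obtain ⟨C, T0, hC, h⟩ := h 0
  obtain ⟨A', hA'⟩ := poly_from hk (ll_small C) (dC_pos hC) (dC_inv' hC) (A := 0) (by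
    filter_upwards [eventually_ge_atTop T0, (ll_small C).eventually_le_const (show (0:ℝ) < 1 / 16 by norm_num),
      eventually_ge_atTop 0] with T h1 h2 h5
    refine (h T h1 (dC C T) le_rfl h2 _ _ (adm1_zero h5)).trans ?_
    rw [neg_zero])
  exact ⟨C, A', hC, hA'⟩

lemma ppoly_pline {k : ℕ} (h : PPoly k) : PLine k := by
  obtain ⟨C, A, hC, hA⟩ := h
  obtain ⟨m, hm⟩ := exists_nat_ge A
  have h2 : Tendsto (fun T : ℝ => 2 * T) atTop atTop := tendsto_id.const_mul_atTop two_pos
  have hs : (0:ℝ) < 1 / (64 * (k + 1) * C) := by positivity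
  have hll : ∀ s : ℝ, 0 < s → ∀ᶠ T : ℝ in atTop, C * Real.log (Real.log T) ≤ s * Real.log T := by
    intro s hs
    filter_upwards [(ll_small C).eventually_le_const hs, Real.tendsto_log_atTop.eventually_gt_atTop 0] with T h1 h3
    unfold dC at h1
    rwa [div_le_iff₀ h3] at h1
  obtain ⟨C', hC', hc⟩ := conv2 k m (c := fun T => C * Real.log (Real.log T)) (cb := fun T => C * Real.log (Real.log T))
    ((ll_top'.eventually_ge_atTop 0).mono fun T h => by positivity) (Eventually.of_forall fun _ => le_rfl)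
    (S := Real.exp 1)
    (fun x hx y hy hxy => by
      have hx' : Real.exp 1 ≤ x := hx
      have hx0 : 0 < x := (Real.exp_pos _).trans_le hx'
      have h1 : 1 ≤ Real.log x := by rwa [Real.le_log_iff_exp_le hx0]
      refine mul_le_mul_of_nonneg_left ?_ hC.le
      exact Real.log_le_log (by linarith) (Real.log_le_log hx0 hxy))
    (by
      filter_upwards [h2.eventually (hll (1 / (64 * (k + 1))) (by positivity)), eventually_ge_atTop 2] with T hT hT2
      have hT0 : 0 < T := by linarith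
      have h3 : Real.log (2 * T) ≤ 2 * Real.log T := by
        have h4 : Real.log (2 * T) ≤ Real.log (T ^ 2) := Real.log_le_log (by positivity) (by nlinarith)
        rw [Real.log_pow] at h4
        exact_mod_cast h4
      calc 2 * (k + 1) * (C * Real.log (Real.log (2 * T))) ≤ 2 * (k + 1) * (1 / (64 * (k + 1)) * Real.log (2 * T)) := by
            gcongr
        _ = 1 / 32 * Real.log (2 * T) := by field_simp; ring
        _ ≤ 1 / 32 * (2 * Real.log T) := by gcongr
        _ = _ := by ring)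
    (hll (1 / 4) (by norm_num)) (C := 1) (by
      filter_upwards [hA, Real.tendsto_log_atTop.eventually_ge_atTop 1, eventually_gt_atTop 0] with T h1 h3 h4
      rw [MR_nat] at h1
      refine h1.trans ?_
      rw [one_mul]
      refine mul_le_mul_of_nonneg_left ?_ h4.le
      rw [← Real.rpow_natCast]
      exact Real.rpow_le_rpow_of_exponent_le h3 hm)
  refine ⟨m + 4 * (k + 1) * C + 1, ?_⟩
  filter_upwards [hc, ll_two, Real.tendsto_log_atTop.eventually_ge_atTop (max C' 1), eventually_gt_atTop 0] with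
    T h1 h3 h5 h6
  obtain ⟨l1, l2, l3, l4, l5⟩ := h3
  have h7 : C' ≤ Real.log T := (le_max_left _ _).trans h5
  rw [MR_nat]
  refine h1.trans ?_
  have e1 : Real.exp (2 * (k + 1) * (C * Real.log (Real.log (2 * T)))) ≤ Real.log T ^ (4 * (k + 1) * C) := by
    rw [Real.rpow_def_of_pos l2, Real.exp_le_exp]
    calc 2 * (k + 1) * (C * Real.log (Real.log (2 * T))) ≤ 2 * (k + 1) * (C * (2 * Real.log (Real.log T))) := by
          gcongr
      _ = Real.log (Real.log T) * (4 * (k + 1) * C) := by ring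
  calc C' * (T * Real.log T ^ m) * Real.exp (2 * (k + 1) * (C * Real.log (Real.log (2 * T)))) ≤
        Real.log T * (T * Real.log T ^ m) * Real.log T ^ (4 * (k + 1) * C) := by gcongr
    _ = T * Real.log T ^ (m + 4 * (k + 1) * C + 1) := by
        rw [Real.rpow_add l2, Real.rpow_add l2, Real.rpow_one, Real.rpow_natCast]; ring

theorem tfae_pl1 {k : ℕ} (hk : 1 ≤ k) : List.TFAE [PLine k, PLead k, PPoly k] := by
  tfae_have 1 → 2 := pline_plead hk
  tfae_have 2 → 3 := plead_ppoly hk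
  tfae_have 3 → 1 := ppoly_pline
  tfae_finish

theorem tfae_pl2 : List.TFAE [∀ k : ℕ, 1 ≤ k → PLine k, ∀ k l : ℕ, PFull k l, ∀ k : ℕ, 1 ≤ k → PPoly k] := by
  tfae_have 1 → 2 := fun h k l => pline_pfull (K := k + l + 1) (by omega) (h (k + l + 1) (by omega))
  tfae_have 2 → 3 := fun h k hk => pfull_ppoly hk (h k k)
  tfae_have 3 → 1 := fun h k hk => ppoly_pline (h k hk)
  tfae_finish

/-! ### the Lindelöf hypothesis -/

lemma dl_of_ad {d : ℝ → ℝ} (h : Ad d) : Dl d := by
  refine ⟨h.t0, tendsto_atTop.2 fun M => ?_⟩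
  obtain ⟨M1, hM1⟩ : ∃ M1, M1 = max M 1 := ⟨_, rfl⟩
  have hM11 : 1 ≤ M1 := by rw [hM1]; exact le_max_right _ _
  have hMM : M ≤ M1 := by rw [hM1]; exact le_max_left _ _
  -- `log L ≤ (log T)^(1/2) / M1`
  have hlog : ∀ᶠ T : ℝ in atTop, M1 * Real.log (Real.log T) ≤ Real.log T ^ (1 / 2 : ℝ) := by
    have h1 := (isLittleO_log_rpow_atTop (r := 1 / 2) (by norm_num)).bound (c := 1 / M1) (by positivity)
    have h2 := Real.tendsto_log_atTop.eventually h1
    filter_upwards [h2, ll_top'.eventually_gt_atTop 0, Real.tendsto_log_atTop.eventually_gt_atTop 0] with T h3 h4 h5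
    rw [Real.norm_of_nonneg h4.le, Real.norm_of_nonneg (by positivity)] at h3
    calc M1 * Real.log (Real.log T) ≤ M1 * (1 / M1 * Real.log T ^ (1 / 2 : ℝ)) := by gcongr
      _ = _ := by field_simp
  filter_upwards [h.pos, h.tL.eventually_ge_atTop (4 * M1), hlog, ll_top'.eventually_ge_atTop 1,
    Real.tendsto_log_atTop.eventually_gt_atTop 0, h.t0.eventually_le_const (show (0:ℝ) < 1 / 16 by norm_num)] with
    T h1 h2 h3 h4 h5 h6
  rw [le_div_iff₀ (by linarith)]
  refine (mul_le_mul_of_nonneg_right hMM (by linarith)).trans ?_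
  set L := Real.log T with hL
  have hl0 : 0 < Real.log (1 / d T) := Real.log_pos (by rw [one_lt_div h1]; linarith)
  rw [le_div_iff₀ (by positivity)] at h2
  rcases le_or_gt (L ^ (-(1 / 2) : ℝ)) (d T) with hc | hc
  · calc M1 * Real.log L ≤ L ^ (1 / 2 : ℝ) := h3
      _ = L ^ (-(1 / 2) : ℝ) * L ^ (1:ℝ) := by rw [← Real.rpow_add h5]; norm_num
      _ = L ^ (-(1 / 2) : ℝ) * L := by rw [Real.rpow_one]
      _ ≤ d T * L := by gcongr
  · have h7 : 1 / 2 * Real.log L ≤ Real.log (1 / d T) := by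
      have h9 : Real.log (1 / d T) = -Real.log (d T) := by rw [one_div, Real.log_inv]
      rw [h9]
      have h8 := Real.log_le_log h1 hc.le
      rw [Real.log_rpow h5] at h8
      linarith
    have h8 : (1 / 2 * Real.log L) ^ 2 ≤ Real.log (1 / d T) ^ 2 := pow_le_pow_left₀ (by linarith) h7 2
    calc M1 * Real.log L ≤ M1 * (Real.log L) ^ 2 := by
          gcongr
          nlinarith
      _ = 4 * M1 * (1 / 2 * Real.log L) ^ 2 := by ring
      _ ≤ 4 * M1 * Real.log (1 / d T) ^ 2 := by gcongr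
      _ ≤ _ := h2

/-- polynomial bounds near the line give the Lindelöf hypothesis -/
lemma LH_of_poly' {d : ℝ → ℝ} (hpos : ∀ᶠ T : ℝ in atTop, 0 < d T) (ht0 : Tendsto d atTop (𝓝 0))
    (h : ∀ k : ℕ, 1 ≤ k → ∃ A : ℝ, ∀ᶠ T : ℝ in atTop, MR k (d T) T ≤ T * Real.log T ^ A) : MU.LH := by
  have key : ∀ k : ℕ, 1 ≤ k → ∀ᶠ T : ℝ in atTop, J k 0 (2 * T) ≤ T ^ 2 := by
    intro k hk
    obtain ⟨A, hA⟩ := h k hk
    obtain ⟨m, hm⟩ := exists_nat_ge A
    have h2 : Tendsto (fun T : ℝ => 2 * T) atTop atTop := tendsto_id.const_mul_atTop two_pos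
    have hk0 : (0:ℝ) ≤ k := Nat.cast_nonneg k
    have hs : (0:ℝ) < 1 / (64 * (k + 1)) := by positivity
    have hlog2 : ∀ T : ℝ, 2 ≤ T → Real.log (2 * T) ≤ 2 * Real.log T := by
      intro T hT
      have h4 : Real.log (2 * T) ≤ Real.log (T ^ 2) := Real.log_le_log (by positivity) (by nlinarith)
      rw [Real.log_pow] at h4
      exact_mod_cast h4
    obtain ⟨C', hC', hc⟩ := conv2 k m (c := fun T => d T * Real.log T)
      (cb := fun T => 1 / (64 * (k + 1)) * Real.log T)
      (by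
        filter_upwards [hpos, Real.tendsto_log_atTop.eventually_gt_atTop 0] with T h1 h2
        positivity)
      (by
        filter_upwards [ht0.eventually_le_const hs, Real.tendsto_log_atTop.eventually_gt_atTop 0] with T h1 h2
        gcongr)
      (S := 1)
      (fun x hx y hy hxy => mul_le_mul_of_nonneg_left (Real.log_le_log (by
        have : (1:ℝ) ≤ x := hx
        linarith) hxy) hs.le)
      (by
        filter_upwards [eventually_ge_atTop 2] with T hT
        calc 2 * (k + 1) * (1 / (64 * (k + 1)) * Real.log (2 * T)) = 1 / 32 * Real.log (2 * T) := by field_simp; ring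
          _ ≤ 1 / 32 * (2 * Real.log T) := by gcongr; exact hlog2 T hT
          _ = _ := by ring)
      (by
        filter_upwards [ht0.eventually_le_const (show (0:ℝ) < 1 / 4 by norm_num),
          Real.tendsto_log_atTop.eventually_gt_atTop 0] with T h1 h2
        gcongr)
      (C := 1) (by
        filter_upwards [hA, Real.tendsto_log_atTop.eventually_ge_atTop 1, eventually_gt_atTop 0] with T h1 h3 h4
        rw [MR_nat] at h1
        have e : d T * Real.log T / Real.log T = d T := by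
          have : Real.log T ≠ 0 := by linarith
          field_simp
        rw [e, one_mul]
        refine h1.trans ?_
        refine mul_le_mul_of_nonneg_left ?_ h4.le
        rw [← Real.rpow_natCast]
        exact Real.rpow_le_rpow_of_exponent_le h3 hm)
    filter_upwards [h2.eventually hc, ev_log_small (C' * 2 ^ (m + 1)) m (s := 1 / 4) (by norm_num),
      eventually_ge_atTop 2, Real.tendsto_log_atTop.eventually_ge_atTop 1] with T h1 h3 h4 h5
    have hT0 : 0 < T := by linarith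
    have hlb := hlog2 T h4
    have hlb0 : 0 ≤ Real.log (2 * T) := Real.log_nonneg (by linarith)
    have e1 : 2 * (k + 1) * (1 / (64 * (k + 1)) * Real.log (2 * (2 * T))) ≤ 1 / 4 * Real.log T := by
      have e2 : Real.log (2 * (2 * T)) ≤ 4 * Real.log T := by
        have := hlog2 (2 * T) (by linarith)
        linarith
      calc 2 * (k + 1) * (1 / (64 * (k + 1)) * Real.log (2 * (2 * T))) = 1 / 32 * Real.log (2 * (2 * T)) := by
            field_simp; ring
        _ ≤ 1 / 32 * (4 * Real.log T) := by gcongr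
        _ ≤ _ := by linarith
    calc J k 0 (2 * T) ≤ C' * (2 * T * Real.log (2 * T) ^ m) *
          Real.exp (2 * (k + 1) * (1 / (64 * (k + 1)) * Real.log (2 * (2 * T)))) := h1
      _ ≤ C' * (2 * T * (2 * Real.log T) ^ m) * Real.exp (1 / 4 * Real.log T) := by gcongr
      _ = (C' * 2 ^ (m + 1) * Real.log T ^ m) * T * T ^ (1 / 4 : ℝ) := by
          rw [mul_pow, Real.rpow_def_of_pos hT0, mul_comm (Real.log T) (1 / 4)]; ring
      _ ≤ T ^ (1 / 4 : ℝ) * T * T ^ (1 / 4 : ℝ) := by gcongr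
      _ = T ^ (1 / 4 : ℝ) * T ^ (1 : ℝ) * T ^ (1 / 4 : ℝ) := by rw [Real.rpow_one]
      _ = T ^ (3 / 2 : ℝ) := by rw [← Real.rpow_add hT0, ← Real.rpow_add hT0]; norm_num
      _ ≤ T ^ (2 : ℝ) := Real.rpow_le_rpow_of_exponent_le (by linarith) (by norm_num)
      _ = T ^ 2 := by norm_cast
  refine MU.LH_of_moments 0 1 one_pos fun η hη => ?_
  obtain ⟨k, hk⟩ := exists_nat_ge (max (2 / η) 1)
  have hkη : 2 / η ≤ k := (le_max_left _ _).trans hk
  have hk1' : 1 ≤ k := by exact_mod_cast (le_max_right _ _).trans hk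
  have hk1 : 2 ≤ η * k := by
    rw [div_le_iff₀ hη] at hkη
    linarith
  obtain ⟨T0, hT0⟩ := (key k hk1').exists_forall_of_atTop
  refine ⟨k, (by gcongr; norm_num : 1 / η ≤ 2 / η).trans hkη, max T0 1, fun T hT => ⟨fun _ => 1, ?_, ?_⟩⟩
  · have hT1 : 1 ≤ T := (le_max_right _ _).trans hT
    refine ⟨fun s _ _ _ _ => ⟨analyticAt_const, ?_⟩, fun s _ _ _ _ => ?_⟩
    · simp
    · simp
  · have hT1 : 1 ≤ T := (le_max_right _ _).trans hT
    have h1 := hT0 T ((le_max_left _ _).trans hT)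
    have e1 : ∀ t : ℝ, ‖riemannZeta (1 / 2 + t * I) * (1:ℂ)‖ ^ (2 * k) = Z k 0 t := by
      intro t
      rw [mul_one]
      unfold Z pt
      congr 3
      push_cast
      ring
    simp only [e1]
    have hcn := Z_cont k (r := 0) (by norm_num)
    have e2 : ∫ t in T..(2 * T), Z k 0 t ≤ J k 0 (2 * T) := by
      have h3 := intervalIntegral.integral_add_adjacent_intervals (a := 0) (b := T) (c := 2 * T)
        (hcn.intervalIntegrable (μ := volume) _ _) (hcn.intervalIntegrable _ _)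
      have h4 := J_nonneg k 0 (T := T) (by linarith)
      unfold J at h4 ⊢
      linarith
    refine e2.trans (h1.trans ?_)
    calc T ^ 2 = T ^ (2:ℝ) := by norm_cast
      _ ≤ T ^ (η * k) := Real.rpow_le_rpow_of_exponent_le hT1 hk1

theorem LH_pl : List.TFAE [
    MU.LH,
    ∃ d : ℝ → ℝ, Dl d ∧ ∀ (k l : ℕ) (B : ℝ), ∀ᶠ T : ℝ in atTop, ∀ (a : Fin k → ℝ) (b : Fin l → ℝ), Adm1 T a b →
      ‖SM a b (d T) T - T * diag a b (d T)‖ ≤ T * Real.log T ^ (-B),
    ∃ d : ℝ → ℝ, Dl d ∧ ∀ k : ℕ, 1 ≤ k → ∃ A : ℝ, ∀ᶠ T : ℝ in atTop, MR k (d T) T ≤ T * Real.log T ^ A] := by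
  tfae_have 1 → 2 := by
    intro h
    obtain ⟨d, hd, hL⟩ := LH_dist h
    have hl := dl_of_ad hd
    refine ⟨d, hl, fun k l B => ?_⟩
    exact full_path hl (K' := k + l + 1) (two_polylog hl.inv
      (hL (k + l + 1) (by omega))) (by omega) B
  tfae_have 2 → 3 := by
    rintro ⟨d, hd, h⟩
    refine ⟨d, hd, fun k hk => ?_⟩
    refine poly_from hk hd.1 hd.pos hd.inv (A := 0) ?_
    filter_upwards [h k k 0, eventually_ge_atTop 0] with T h1 h2
    refine (h1 _ _ (adm1_zero h2)).trans ?_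
    rw [neg_zero]
  tfae_have 3 → 1 := by
    rintro ⟨d, hd, h⟩
    exact LH_of_poly' hd.pos hd.1 h
  tfae_finish

end

end Pool.Agent.U575.PL
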