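import Pool.Agent.U575.PL.Def
import Pool.Agent.U575.RO.Sc

set_option autoImplicit false

/-! From truncated to untruncated shifted moments. -/

namespace Pool.Agent.U575.PL

open MeasureTheory Filter Topology Complex Pool.Agent.N748.MG Pool.Agent.U575.RO Pool.Agent.U575.JO
  Pool.Agent.U575.OL

noncomputable section

/-- products with one large factor -/
lemma prod_big {ι : Type} [Fintype ι] {y : ι → ℝ} (hy : ∀ i, 0 ≤ y i) {V : ℝ} (hV : 1 ≤ V) {i0 : ι} (h0 : V < y i0)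
    {m : ℕ} (hm : Fintype.card ι ≤ m) : ∏ i, y i ≤ (V ^ (m - Fintype.card ι))⁻¹ * ∑ i, y i ^ m := by
  obtain ⟨l, -, hl⟩ := Finset.exists_max_image Finset.univ y ⟨i0, Finset.mem_univ i0⟩
  have h1 : V < y l := h0.trans_le (hl i0 (Finset.mem_univ _))
  have h2 : 0 < y l := by linarith
  have hV0 : 0 < V := by linarith
  calc ∏ i, y i ≤ ∏ _i : ι, y l := Finset.prod_le_prod (fun i _ => hy i) fun i _ => hl i (Finset.mem_univ i)
    _ = y l ^ Fintype.card ι := by rw [Finset.prod_const, Finset.card_univ]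
    _ ≤ (V ^ (m - Fintype.card ι))⁻¹ * y l ^ m := by
        rw [← div_eq_inv_mul, le_div_iff₀ (by positivity)]
        calc y l ^ Fintype.card ι * V ^ (m - Fintype.card ι) ≤
              y l ^ Fintype.card ι * y l ^ (m - Fintype.card ι) := by gcongr
          _ = y l ^ m := by rw [← pow_add, Nat.add_sub_cancel' hm]
    _ ≤ _ := by
        gcongr
        exact Finset.single_le_sum (f := fun i => y i ^ m) (fun i _ => pow_nonneg (hy i) m) (Finset.mem_univ l)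

lemma card_kl (k l : ℕ) : Fintype.card (Fin k ⊕ Fin l) = k + l := by simp

lemma hh_le {k l : ℕ} {a : Fin k → ℝ} {b : Fin l → ℝ} {T : ℝ} (ha : ∀ j, |a j| ≤ T) (hb : ∀ j, |b j| ≤ T)
    (i : Fin k ⊕ Fin l) : |hh a b i| ≤ T := by
  rcases i with j | j
  · exact ha j
  · exact hb j

lemma SM_split {k l : ℕ} (a : Fin k → ℝ) (b : Fin l → ℝ) {δ : ℝ} (h0 : δ ≤ 1 / 16) (V : ℝ) {T : ℝ} (hT : 0 ≤ T) :
    SM a b δ T - (∫ t in good a b δ V T, G a b δ t) = ∫ t in Set.Ioc 0 T \ good a b δ V T, G a b δ t := by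
  have hI : IntegrableOn (G a b δ) (Set.Ioc 0 T) :=
    (G_cont a b h0).continuousOn.integrableOn_Icc.mono_set Set.Ioc_subset_Icc_self
  have h1 := integral_inter_add_sdiff (good_meas a b h0 V T) hI
  have h2 : Set.Ioc 0 T ∩ good a b δ V T = good a b δ V T := Set.inter_eq_self_of_subset_right fun t ht => ht.1
  rw [h2] at h1
  unfold SM
  rw [intervalIntegral.integral_of_le hT, ← h1]
  ring

lemma pow_rpow (K : ℕ) {y : ℝ} : y ^ (2 * K) = y ^ (2 * (K:ℝ)) := by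
  rw [← Real.rpow_natCast]
  push_cast
  rfl

/-- the tail -/
theorem tail {k l K : ℕ} (hK : k + l ≤ 2 * K) (a : Fin k → ℝ) (b : Fin l → ℝ) {δ V T : ℝ} (h0 : δ ≤ 1 / 16)
    (hV : 1 ≤ V) (hT : 0 ≤ T) (ha : ∀ j, |a j| ≤ T) (hb : ∀ j, |b j| ≤ T) :
    ‖SM a b δ T - (∫ t in good a b δ V T, G a b δ t)‖ ≤
      (V ^ (2 * K - (k + l)))⁻¹ * ((k + l : ℕ) * (2 * MR K δ (2 * T))) := by
  rw [SM_split a b h0 V hT]
  have hK0 : (0:ℝ) ≤ K := Nat.cast_nonneg K
  have hV0 : 0 < V := by linarith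
  set E := Set.Ioc 0 T \ good a b δ V T with hE
  have hEm : MeasurableSet E := measurableSet_Ioc.diff (good_meas a b h0 V T)
  have hEs : E ⊆ Set.Ioc 0 T := Set.sdiff_subset
  have hi : ∀ i, IntegrableOn (fun t => mz δ (t + hh a b i) ^ (2 * (K:ℝ))) (Set.Ioc 0 T) := fun i =>
    (mzs_cont h0 hK0 _).continuousOn.integrableOn_Icc.mono_set Set.Ioc_subset_Icc_self
  have hs : IntegrableOn (fun t => ∑ i, mz δ (t + hh a b i) ^ (2 * (K:ℝ))) (Set.Ioc 0 T) :=
    integrable_finsetSum _ fun i _ => hi i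
  have hGn : ∀ t ∈ E, ‖G a b δ t‖ ≤ (V ^ (2 * K - (k + l)))⁻¹ * ∑ i, mz δ (t + hh a b i) ^ (2 * (K:ℝ)) := by
    intro t ht
    have h1 : ∃ i, V < mz δ (t + hh a b i) := by
      by_contra hcon
      push Not at hcon
      exact ht.2 ⟨ht.1, hcon⟩
    obtain ⟨i, hi⟩ := h1
    rw [G_norm]
    have h2 := prod_big (y := fun i => mz δ (t + hh a b i)) (fun i => norm_nonneg _) hV hi (m := 2 * K)
      (by rw [card_kl]; exact hK)
    rw [card_kl] at h2
    simp only [pow_rpow K] at h2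
    exact h2
  calc ‖∫ t in E, G a b δ t‖ ≤ ∫ t in E, ‖G a b δ t‖ := norm_integral_le_integral_norm _
    _ ≤ ∫ t in E, (V ^ (2 * K - (k + l)))⁻¹ * ∑ i, mz δ (t + hh a b i) ^ (2 * (K:ℝ)) := by
        refine setIntegral_mono_on ?_ ((hs.mono_set hEs).const_mul _) hEm hGn
        exact ((G_cont a b h0).continuousOn.integrableOn_Icc.mono_set
          (hEs.trans Set.Ioc_subset_Icc_self)).norm
    _ = (V ^ (2 * K - (k + l)))⁻¹ * ∑ i, ∫ t in E, mz δ (t + hh a b i) ^ (2 * (K:ℝ)) := by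
        rw [integral_const_mul, integral_finsetSum _ fun i _ => (hi i).mono_set hEs]
    _ ≤ (V ^ (2 * K - (k + l)))⁻¹ * ∑ _i : Fin k ⊕ Fin l, 2 * MR K δ (2 * T) := by
        gcongr with i _
        have h1 := mz_shift h0 hK0 hT (hh_le ha hb i)
        rw [intervalIntegral.integral_of_le hT] at h1
        refine le_trans ?_ h1
        exact setIntegral_mono_set (hi i) (Eventually.of_forall fun t => Real.rpow_nonneg (norm_nonneg _) _)
          hEs.eventuallyLE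
    _ = _ := by
        rw [Finset.sum_const, Finset.card_univ, card_kl, nsmul_eq_mul]

/-- **from one moment of larger order to the shifted moments** -/
theorem untr (k l K : ℕ) (hK : k + l < 2 * K) (A0 B : ℝ) : ∃ C T0 : ℝ, 0 < C ∧ ∀ T : ℝ, T0 ≤ T → ∀ δ : ℝ,
    C * Real.log (Real.log T) / Real.log T ≤ δ → δ ≤ 1 / 16 → MR K δ (2 * T) ≤ T * Real.log T ^ A0 →
    ∀ (a : Fin k → ℝ) (b : Fin l → ℝ), (∀ j, |a j| ≤ T) → (∀ j, |b j| ≤ T) →
    ‖SM a b δ T - T * diag a b δ‖ ≤ T * Real.log T ^ (-B) := by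
  obtain ⟨c, hc, h⟩ := trc k l
  obtain ⟨B', hB'⟩ := exists_nat_ge (B + 1)
  obtain ⟨A, C1, T1, hC1, h2⟩ := h B'
  obtain ⟨A', hA'⟩ := exists_nat_ge (max (A:ℝ) (A0 + B + 1))
  have hAA : A ≤ A' := by exact_mod_cast (le_max_left _ _).trans hA'
  have hAB : A0 + B + 1 ≤ A' := (le_max_right _ _).trans hA'
  obtain ⟨C, hC⟩ : ∃ C, C = max C1 (A' / c) := ⟨_, rfl⟩
  have hCC : C1 ≤ C := by rw [hC]; exact le_max_left _ _
  have hCA : A' / c ≤ C := by rw [hC]; exact le_max_right _ _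
  refine ⟨C, max T1 (Real.exp (1 + 2 * (k + l : ℕ))), by linarith, fun T hT δ hδ hδ1 hM a b ha hb => ?_⟩
  have hTT1 : T1 ≤ T := (le_max_left _ _).trans hT
  have hTe : Real.exp (1 + 2 * (k + l : ℕ)) ≤ T := (le_max_right _ _).trans hT
  have hT0 : 0 < T := (Real.exp_pos _).trans_le hTe
  have hL : 1 + 2 * ((k + l : ℕ) : ℝ) ≤ Real.log T := by rwa [Real.le_log_iff_exp_le hT0]
  set L := Real.log T with hLd
  have hn : (0:ℝ) ≤ ((k + l : ℕ) : ℝ) := Nat.cast_nonneg _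
  have hL1 : 1 ≤ L := by linarith
  have hL0 : 0 < L := by linarith
  have hll : 0 ≤ Real.log L := Real.log_nonneg hL1
  have hδ' : C1 * Real.log L / L ≤ δ := le_trans (by gcongr) hδ
  have hV1 : 1 ≤ L ^ A' := one_le_pow₀ hL1
  have hVc : L ^ A' ≤ T ^ (c * δ) := by
    rw [Real.rpow_def_of_pos hT0, ← Real.log_le_iff_le_exp (by positivity), Real.log_pow]
    have h3 : C * Real.log L ≤ δ * L := by rwa [div_le_iff₀ hL0] at hδ
    have h4 : (A':ℝ) ≤ c * C := by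
      rw [div_le_iff₀ hc] at hCA
      linarith
    calc (A':ℝ) * Real.log L ≤ (c * C) * Real.log L := by gcongr
      _ = c * (C * Real.log L) := by ring
      _ ≤ c * (δ * L) := by gcongr
      _ = Real.log T * (c * δ) := by rw [← hLd]; ring
  obtain ⟨g1, -⟩ := h2 T hTT1 δ hδ' hδ1 (L ^ A') (pow_le_pow_right₀ hL1 hAA) hVc a b ha hb
  have g2 := tail (K := K) hK.le a b hδ1 hV1 hT0.le ha hb
  have e1 : SM a b δ T - T * diag a b δ = (SM a b δ T - ∫ t in good a b δ (L ^ A') T, G a b δ t) +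
      ((∫ t in good a b δ (L ^ A') T, G a b δ t) - T * diag a b δ) := by ring
  rw [e1]
  have p1 : T / L ^ B' ≤ T * L ^ (-(B + 1)) := by
    rw [div_eq_mul_inv]
    refine mul_le_mul_of_nonneg_left ?_ hT0.le
    rw [Real.rpow_neg hL0.le, ← Real.rpow_natCast L B']
    exact inv_anti₀ (Real.rpow_pos_of_pos hL0 _) (Real.rpow_le_rpow_of_exponent_le hL1 hB')
  have p2 : ((L ^ A') ^ (2 * K - (k + l)))⁻¹ * ((k + l : ℕ) * (2 * MR K δ (2 * T))) ≤
      2 * (k + l : ℕ) * (T * L ^ (-(B + 1))) := by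
    have q1 : ((L ^ A') ^ (2 * K - (k + l)))⁻¹ ≤ (L ^ A')⁻¹ := by
      refine inv_anti₀ (by positivity) ?_
      calc L ^ A' = (L ^ A') ^ 1 := (pow_one _).symm
        _ ≤ (L ^ A') ^ (2 * K - (k + l)) := pow_le_pow_right₀ hV1 (by omega)
    have q2 : (L ^ A')⁻¹ * L ^ A0 ≤ L ^ (-(B + 1)) := by
      rw [← Real.rpow_natCast L A', ← Real.rpow_neg hL0.le, ← Real.rpow_add hL0]
      exact Real.rpow_le_rpow_of_exponent_le hL1 (by linarith)
    have hMR : 0 ≤ MR K δ (2 * T) :=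
      intervalIntegral.integral_nonneg (by linarith) fun t _ => Real.rpow_nonneg (norm_nonneg _) _
    calc ((L ^ A') ^ (2 * K - (k + l)))⁻¹ * ((k + l : ℕ) * (2 * MR K δ (2 * T))) ≤
          (L ^ A')⁻¹ * ((k + l : ℕ) * (2 * (T * L ^ A0))) := by gcongr
      _ = 2 * (k + l : ℕ) * (T * ((L ^ A')⁻¹ * L ^ A0)) := by ring
      _ ≤ _ := by gcongr
  calc _ ≤ _ := norm_add_le _ _
    _ ≤ 2 * (k + l : ℕ) * (T * L ^ (-(B + 1))) + T * L ^ (-(B + 1)) := add_le_add (g2.trans p2) (g1.trans p1)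
    _ = (1 + 2 * (k + l : ℕ)) * (T * L ^ (-(B + 1))) := by ring
    _ ≤ L * (T * L ^ (-(B + 1))) := by gcongr
    _ = T * L ^ (-B) := by
        have : L ^ (-B) = L * L ^ (-(B + 1)) := by
          rw [neg_add, Real.rpow_add hL0, Real.rpow_neg_one]
          field_simp
        rw [this]
        ring

/-- **powers of the logarithm on the line** -/
theorem pl_line (k l K : ℕ) (hK : k + l < 2 * K) {A0 : ℝ} (hM : ∀ᶠ T : ℝ in atTop, J K 0 T ≤ T * Real.log T ^ A0)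
    (B : ℝ) : ∃ C T0 : ℝ, 0 < C ∧ ∀ T : ℝ, T0 ≤ T → ∀ δ : ℝ,
    C * Real.log (Real.log T) / Real.log T ≤ δ → δ ≤ 1 / 16 →
    ∀ (a : Fin k → ℝ) (b : Fin l → ℝ), (∀ j, |a j| ≤ T) → (∀ j, |b j| ≤ T) →
    ‖SM a b δ T - T * diag a b δ‖ ≤ T * Real.log T ^ (-B) := by
  obtain ⟨A1, hA1⟩ : ∃ A1, A1 = max A0 0 := ⟨_, rfl⟩
  have hA10 : 0 ≤ A1 := by rw [hA1]; exact le_max_right _ _
  have hA01 : A0 ≤ A1 := by rw [hA1]; exact le_max_left _ _
  obtain ⟨C, T0, hC, h⟩ := untr k l K hK (A1 + 1) B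
  obtain ⟨C2, X0, hC2, hX0, hU⟩ := J_unif K
  have h4 : Tendsto (fun T : ℝ => 4 * T) atTop atTop := tendsto_id.const_mul_atTop four_pos
  have hev : ∀ᶠ T : ℝ in atTop, ∀ δ : ℝ, 0 ≤ δ → δ ≤ 1 / 16 → MR K δ (2 * T) ≤ T * Real.log T ^ (A1 + 1) := by
    filter_upwards [h4.eventually hM, eventually_ge_atTop X0, eventually_ge_atTop 4,
      Real.tendsto_log_atTop.eventually_ge_atTop (C2 * (2 + 4 * 2 ^ A1)),
      Real.tendsto_log_atTop.eventually_ge_atTop 1] with T h1 h3 h5 h6 h7 δ hδ0 hδ1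
    have hT0 : 0 < T := by linarith
    have hL0 : 0 < Real.log T := by linarith
    rw [MR_nat]
    have h8 := hU (2 * T) (by linarith) δ hδ0 (by linarith)
    have e1 : 2 * (2 * T) = 4 * T := by ring
    rw [e1] at h8
    have h9 : Real.log (4 * T) ≤ 2 * Real.log T := by
      have h10 : Real.log (4 * T) ≤ Real.log (T ^ 2) := Real.log_le_log (by positivity) (by nlinarith)
      rw [Real.log_pow] at h10
      exact_mod_cast h10
    have h10 : 1 ≤ Real.log (4 * T) := h7.trans (Real.log_le_log hT0 (by linarith))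
    have h11 : J K 0 (4 * T) ≤ 4 * T * (2 ^ A1 * Real.log T ^ A1) := by
      calc J K 0 (4 * T) ≤ 4 * T * Real.log (4 * T) ^ A0 := h1
        _ ≤ 4 * T * Real.log (4 * T) ^ A1 := by
            gcongr
        _ ≤ 4 * T * (2 * Real.log T) ^ A1 := by gcongr
        _ = _ := by rw [Real.mul_rpow two_pos.le hL0.le]
    have h12 : 1 ≤ Real.log T ^ A1 := Real.one_le_rpow h7 hA10
    calc J K δ (2 * T) ≤ C2 * (2 * T + J K 0 (4 * T)) := h8
      _ ≤ C2 * (2 * T * Real.log T ^ A1 + 4 * T * (2 ^ A1 * Real.log T ^ A1)) := by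
          have h13 : 2 * T ≤ 2 * T * Real.log T ^ A1 := le_mul_of_one_le_right (by positivity) h12
          gcongr
      _ = T * (C2 * (2 + 4 * 2 ^ A1) * Real.log T ^ A1) := by ring
      _ ≤ T * (Real.log T * Real.log T ^ A1) := by gcongr
      _ = T * Real.log T ^ (A1 + 1) := by rw [Real.rpow_add hL0, Real.rpow_one]; ring
  obtain ⟨T1, hT1⟩ := hev.exists_forall_of_atTop
  refine ⟨C, max (max T0 T1) (Real.exp 1), hC, fun T hT δ hδ hδ1 a b ha hb => ?_⟩
  have hTe : Real.exp 1 ≤ T := (le_max_right _ _).trans hT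
  have hTp : 0 < T := (Real.exp_pos _).trans_le hTe
  have hL : 1 ≤ Real.log T := by rwa [Real.le_log_iff_exp_le hTp]
  have hδ0 : 0 ≤ δ := le_trans (by
    have := Real.log_nonneg hL
    positivity) hδ
  exact h T (((le_max_left _ _).trans (le_max_left _ _)).trans hT) δ hδ hδ1
    (hT1 T (((le_max_right _ _).trans (le_max_left _ _)).trans hT) δ hδ0 hδ1) a b ha hb

end

end Pool.Agent.U575.PL
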